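import Pool.Agent.W559.Ga.Tw
import Pool.Agent.H519R3.RE.X2

set_option autoImplicit false
set_option linter.unusedSectionVars false

open MvPolynomial Pool.Agent.H920R2 Pool.Agent.H519R3.RS Pool.Agent.H519R3.RE

universe u v

namespace Pool.Agent.W559.Ga

section good

variable {k : Type u} [Field k] {n : ℕ} (w : Fin n → ℕ)

/-- The weighted filtration of the polynomial ring is good. -/
theorem good_A : Good k (isFilt_EI (X : Fin n → MvPolynomial (Fin n) k) w) := by
  let L := FractionRing (MvPolynomial (Fin n) k)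
  let g : MvPolynomial (Fin n) k →ₐ[k] L :=
    IsScalarTower.toAlgHom k (MvPolynomial (Fin n) k) L
  have hinj : Function.Injective g := IsFractionRing.injective (MvPolynomial (Fin n) k) L
  let hF := isFilt_EI (X : Fin n → MvPolynomial (Fin n) k) w
  let R := rwA g w (X : Fin n → MvPolynomial (Fin n) k)
  have hs : hm (-1) 1 ∈ R := rwA_s g w _
  have hb : ∀ b, hm 0 (g b) ∈ R := rwA_b g w _
  have hx : ∀ i : Fin n, hm (w i) (g (X i)) ∈ R := fun i => rwA_x g w _ i
  have key : ∀ e : ℕ, ∀ b ∈ EI (X : Fin n → MvPolynomial (Fin n) k) w e,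
      hm (e : ℤ) (g b) ∈ R := by
    intro e b hb'
    unfold EI at hb'
    induction hb' using Submodule.span_induction with
    | mem y hy =>
      obtain ⟨α, hα, rfl⟩ := hy
      have h1 : ∀ s : Finset (Fin n), hm ((∑ i ∈ s, α i * w i : ℕ) : ℤ)
          (g (∏ i ∈ s, X i ^ α i)) ∈ R := by
        classical
        intro s
        induction s using Finset.induction_on with
        | empty =>
          rw [Finset.sum_empty, Finset.prod_empty]
          exact hb 1
        | insert a s ha ih =>
          rw [Finset.sum_insert ha, Finset.prod_insert ha, map_mul, map_pow]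
          have h2 := R.mul_mem (R.pow_mem (hx a) (α a)) ih
          rw [hm_pow, hm_mul] at h2
          push_cast at h2 ⊢
          exact h2
      have h2 := R.mul_mem (R.pow_mem hs (∑ i, α i * w i - e)) (h1 Finset.univ)
      rw [hm_pow, hm_mul, one_pow, one_mul] at h2
      have h3 : (((∑ i, α i * w i - e : ℕ) : ℤ) * -1 + ((∑ i, α i * w i : ℕ) : ℤ)) = (e : ℤ) := by
        omega
      rw [h3] at h2
      exact h2
    | zero =>
      rw [map_zero, hm_zero]
      exact R.zero_mem
    | add y z _ _ hy hz =>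
      rw [map_add, hm_add]
      exact R.add_mem hy hz
    | smul c y _ hy =>
      have h1 := R.mul_mem (hb c) hy
      rw [hm_mul, zero_add, ← map_mul] at h1
      exact h1
  have heq : rG g hF = R := by
    apply le_antisymm
    · intro f hf
      rw [eq_sum_hm f]
      refine Subalgebra.sum_mem _ fun d _ => ?_
      obtain ⟨b, hb1, hb'⟩ := hf d
      rw [← hb']
      rcases le_or_gt 0 d with h | h
      · have h1 := key d.toNat b hb1
        rwa [Int.toNat_of_nonneg h] at h1
      · have h1 := R.mul_mem (R.pow_mem hs d.natAbs) (hb b)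
        rw [hm_pow, hm_mul, one_pow, one_mul] at h1
        have h2 : ((d.natAbs : ℤ) * -1 + 0) = d := by omega
        rwa [h2] at h1
    · change rwA g w (X : Fin n → MvPolynomial (Fin n) k) ≤ _
      unfold rwA
      rw [Algebra.adjoin_le_iff]
      rintro f ((hf | ⟨b, rfl⟩) | ⟨i, rfl⟩)
      · rw [hf]; exact s_rG g hF
      · exact b_rG g hF b
      · refine hm_mem_rG g hF ?_
        rw [Int.toNat_natCast]
        exact hom_mem_EI w (isWeightedHomogeneous_X k w i)
  have hsm : Algebra.Smooth k (rG g hF) := by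
    rw [heq]
    refine smooth_rwA g w hinj ?_
    have h1 : (aeval (X : Fin n → MvPolynomial (Fin n) k) :
        MvPolynomial (Fin n) k →ₐ[k] MvPolynomial (Fin n) k) = AlgHom.id k _ := aeval_X_left
    rw [h1]
    exact RingHom.Etale.of_bijective Function.bijective_id
  refine (good_iff g hF hinj).2 ⟨inferInstance, ?_⟩
  intro e η he he0 hη
  exact smooth_loc hsm _ (isUnit_hm hη)

lemma EI_one_ne (hw : ∃ i, 0 < w i) : EI (X : Fin n → MvPolynomial (Fin n) k) w 1 ≠ ⊥ := by
  obtain ⟨s, hs⟩ := hw
  intro h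
  have h1 := EI_anti (X : Fin n → MvPolynomial (Fin n) k) w (show 1 ≤ w s from hs)
    (hom_mem_EI w (isWeightedHomogeneous_X k w s))
  rw [h, Ideal.mem_bot] at h1
  exact X_ne_zero _ h1

/-- The ideal of the centre. -/
lemma EI_one_le {P : Ideal (MvPolynomial (Fin n) k)} (h : ∀ i, 0 < w i → X i ∈ P) :
    EI (X : Fin n → MvPolynomial (Fin n) k) w 1 ≤ P := by
  unfold EI
  rw [Ideal.span_le]
  rintro _ ⟨α, hα, rfl⟩
  obtain ⟨i, hi⟩ : ∃ i, 0 < α i * w i := by
    by_contra hc
    push Not at hc
    have h1 : ∑ i, α i * w i = 0 := Finset.sum_eq_zero fun i _ => Nat.le_zero.1 (hc i)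
    omega
  have hα' : α i ≠ 0 := by
    intro h0
    rw [h0, Nat.zero_mul] at hi
    omega
  have hw' : 0 < w i := by
    by_contra hc
    have h0 : w i = 0 := by omega
    rw [h0, Nat.mul_zero] at hi
    omega
  rw [← Finset.mul_prod_erase Finset.univ _ (Finset.mem_univ i)]
  exact P.mul_mem_right _ (P.pow_mem_of_mem (h i hw') _ (Nat.pos_of_ne_zero hα'))

end good

section comb

variable {k : Type u} [Field k] {n : ℕ} (w : Fin n → ℕ)

attribute [local instance] MvPolynomial.weightedGradedAlgebra

/-- A power of a variable which is a combination of homogeneous elements is a homogeneous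
combination. -/
lemma pow_comb' {J : Type} [Fintype J] (Δ : J → MvPolynomial (Fin n) k) (lam : J → ℕ)
    (hΔ : ∀ j, IsWeightedHomogeneous w (Δ j) (lam j)) (s : Fin n) (M : ℕ)
    (hM : ∀ j, lam j ≤ M * w s)
    (h : (X s : MvPolynomial (Fin n) k) ^ M ∈ Ideal.span (Set.range Δ)) :
    ∃ g : J → MvPolynomial (Fin n) k, (∀ j, g j ∈ EI (X : Fin n → MvPolynomial (Fin n) k) w
      (M * w s - lam j)) ∧ (X s : MvPolynomial (Fin n) k) ^ M = ∑ j, g j * Δ j := by
  classical
  obtain ⟨c, hc⟩ := (Ideal.mem_span_range_iff_exists_fun).1 h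
  refine ⟨fun j => weightedHomogeneousComponent w (M * w s - lam j) (c j), ?_, ?_⟩
  · intro j
    exact hom_mem_EI w (weightedHomogeneousComponent_isWeightedHomogeneous _ _)
  · have h1 : IsWeightedHomogeneous w ((X s : MvPolynomial (Fin n) k) ^ M) (M * w s) := by
      have h2 := (isWeightedHomogeneous_X k w s).pow M
      simpa using h2
    have h3 := h1.weightedHomogeneousComponent_same
    rw [← h3, ← hc, map_sum]
    refine Finset.sum_congr rfl fun j _ => ?_
    have h4 : M * w s = (M * w s - lam j) + lam j := by have := hM j; omega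
    have h5 := DirectSum.coe_decompose_mul_add_of_right_mem
      (weightedHomogeneousSubmodule k w) (i := M * w s - lam j) (a := c j)
      (b := Δ j) (j := lam j) (hΔ j)
    have h6 : ∀ (e : ℕ) (f : MvPolynomial (Fin n) k),
        ((DirectSum.decompose (weightedHomogeneousSubmodule k w) f) e :
          MvPolynomial (Fin n) k) = weightedHomogeneousComponent w e f := by
      intro e f
      exact weightedDecomposition.decompose'_apply k w f e
    rw [h6, h6, ← h4] at h5
    exact h5

/-- If the common zeros of homogeneous elements are in the centre, then the monomials of large weight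
are homogeneous combinations of them. -/
theorem large_comb' {J : Type} [Fintype J] (Δ : J → MvPolynomial (Fin n) k)
    (lam : J → ℕ) (hΔ : ∀ j, IsWeightedHomogeneous w (Δ j) (lam j))
    (hrad : ∀ s, 0 < w s → (X s : MvPolynomial (Fin n) k) ∈
      (Ideal.span (Set.range Δ)).radical) :
    ∃ M0 : ℕ, ∀ d, M0 ≤ d → ∀ f ∈ EI (X : Fin n → MvPolynomial (Fin n) k) w d,
      f ∈ Ideal.span {y | ∃ j, ∃ g ∈ EI (X : Fin n → MvPolynomial (Fin n) k) w (d - lam j),
        y = g * Δ j} := by
  classical
  have h1 : ∀ s, ∃ M, 0 < w s → ((∀ j, lam j ≤ M) ∧ (X s : MvPolynomial (Fin n) k) ^ M ∈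
      Ideal.span (Set.range Δ)) := by
    intro s
    by_cases hws : 0 < w s
    · obtain ⟨M, hM⟩ := hrad s hws
      refine ⟨M + ∑ j, lam j, fun _ => ⟨fun j => ?_, ?_⟩⟩
      · have := Finset.single_le_sum (f := lam) (fun i _ => Nat.zero_le _) (Finset.mem_univ j)
        omega
      · rw [pow_add]
        exact Ideal.mul_mem_right _ _ hM
    · exact ⟨0, fun h => absurd h hws⟩
  choose M hM using h1
  refine ⟨∑ s, M s * w s + 1, fun d hd f hf => ?_⟩
  unfold EI at hf
  refine (Ideal.span_le.2 ?_) hf
  rintro _ ⟨α, hα, rfl⟩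
  obtain ⟨s, hws, hs⟩ : ∃ s, 0 < w s ∧ M s ≤ α s := by
    by_contra h
    push Not at h
    have h2 : ∑ i, α i * w i ≤ ∑ s, M s * w s := by
      refine Finset.sum_le_sum fun i _ => ?_
      rcases Nat.eq_zero_or_pos (w i) with h0 | h0
      · rw [h0, Nat.mul_zero, Nat.mul_zero]
      · exact Nat.mul_le_mul_right _ (h i h0).le
    omega
  have hle : ∀ j, lam j ≤ M s * w s := fun j =>
    ((hM s hws).1 j).trans (Nat.le_mul_of_pos_right _ hws)
  obtain ⟨g, hg, hgs⟩ := pow_comb' w Δ lam hΔ s (M s) hle (hM s hws).2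
  let β : Fin n → ℕ := Function.update α s (α s - M s)
  have h3 : (∏ i, (X i : MvPolynomial (Fin n) k) ^ α i) = (∏ i, X i ^ β i) * X s ^ M s := by
    rw [← Finset.mul_prod_erase Finset.univ _ (Finset.mem_univ s),
      ← Finset.mul_prod_erase Finset.univ (fun i => (X i : MvPolynomial (Fin n) k) ^ β i)
        (Finset.mem_univ s)]
    have h4 : ∏ i ∈ Finset.univ.erase s, (X i : MvPolynomial (Fin n) k) ^ β i =
        ∏ i ∈ Finset.univ.erase s, X i ^ α i := by
      refine Finset.prod_congr rfl fun i hi => ?_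
      have h5 : β i = α i := Function.update_of_ne (Finset.ne_of_mem_erase hi) _ _
      rw [h5]
    have h6 : β s = α s - M s := Function.update_self _ _ _
    rw [h4, h6]
    have h7 : (X s : MvPolynomial (Fin n) k) ^ α s = X s ^ (α s - M s) * X s ^ M s := by
      rw [← pow_add]
      congr 1
      omega
    rw [h7]
    ring
  have h8 : ∑ i, α i * w i = ∑ i, β i * w i + M s * w s := by
    rw [← Finset.add_sum_erase Finset.univ _ (Finset.mem_univ s),
      ← Finset.add_sum_erase Finset.univ (fun i => β i * w i) (Finset.mem_univ s)]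
    have h4 : ∑ i ∈ Finset.univ.erase s, β i * w i = ∑ i ∈ Finset.univ.erase s, α i * w i := by
      refine Finset.sum_congr rfl fun i hi => ?_
      have h5 : β i = α i := Function.update_of_ne (Finset.ne_of_mem_erase hi) _ _
      rw [h5]
    have h6 : β s = α s - M s := Function.update_self _ _ _
    rw [h4, h6]
    have h7 : α s * w s = (α s - M s) * w s + M s * w s := by
      rw [← add_mul]
      congr 1
      omega
    omega
  change (∏ i, (X i : MvPolynomial (Fin n) k) ^ α i) ∈ Ideal.span _
  rw [h3, hgs, Finset.mul_sum]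
  refine Ideal.sum_mem _ fun j _ => Ideal.subset_span ⟨j, (∏ i, X i ^ β i) * g j, ?_, by ring⟩
  have h9 := mul_mem_EI (X : Fin n → MvPolynomial (Fin n) k) w
    (mono_mem (X : Fin n → MvPolynomial (Fin n) k) w β le_rfl) (hg j)
  exact EI_anti _ w (by have := hle j; omega) h9

/-- The points of a prime ideal. -/
lemma aeval_pt (P : Ideal (MvPolynomial (Fin n) k)) [P.IsPrime]
    (f : MvPolynomial (Fin n) k) :
    aeval (fun i => algebraMap _ (FractionRing (MvPolynomial (Fin n) k ⧸ P))
      (Ideal.Quotient.mk P (X i))) f =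
      algebraMap _ (FractionRing (MvPolynomial (Fin n) k ⧸ P)) (Ideal.Quotient.mk P f) := by
  have h1 : (aeval (fun i => algebraMap _ (FractionRing (MvPolynomial (Fin n) k ⧸ P))
      (Ideal.Quotient.mk P (X i))) :
        MvPolynomial (Fin n) k →ₐ[k] FractionRing (MvPolynomial (Fin n) k ⧸ P)) =
      (IsScalarTower.toAlgHom k (MvPolynomial (Fin n) k ⧸ P) _).comp
        (Ideal.Quotient.mkₐ k P) := by
    apply MvPolynomial.algHom_ext
    intro i
    rw [aeval_X]
    rfl
  rw [h1]
  rfl

lemma pt_eq_zero (P : Ideal (MvPolynomial (Fin n) k)) [P.IsPrime]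
    (f : MvPolynomial (Fin n) k) :
    algebraMap _ (FractionRing (MvPolynomial (Fin n) k ⧸ P)) (Ideal.Quotient.mk P f) = 0 ↔
      f ∈ P := by
  rw [IsFractionRing.to_map_eq_zero_iff, Ideal.Quotient.eq_zero_iff_mem]

/-- A family of polynomials without common zeros outside the centre. -/
lemma rad_of_zero {J : Type} (Δ : J → MvPolynomial (Fin n) k)
    (hV : ∀ (K : Type u) [Field K] [Algebra k K] (z : Fin n → K), (∀ j, aeval z (Δ j) = 0) →
      ∀ i, 0 < w i → z i = 0) (s : Fin n) (hws : 0 < w s) :
    (X s : MvPolynomial (Fin n) k) ∈ (Ideal.span (Set.range Δ)).radical := by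
  rw [Ideal.radical_eq_sInf, Ideal.mem_sInf]
  rintro P ⟨hle, hP⟩
  have _ := hP
  rw [← pt_eq_zero P]
  refine hV _ (fun i => algebraMap _ _ (Ideal.Quotient.mk P (X i))) (fun j => ?_) s hws
  rw [aeval_pt, pt_eq_zero]
  exact hle (Ideal.subset_span ⟨j, rfl⟩)

end comb

section act

variable {k : Type u} [Field k] {n : ℕ} (w : Fin n → ℕ)
  {Φ : MvPolynomial (Fin n) k →ₐ[k] Polynomial (MvPolynomial (Fin n) k)}

/-- The two-variable form of the axioms of an action. -/
lemma co_of_two {A : Type u} [CommRing A] [Algebra k A] {Φ : A →ₐ[k] Polynomial A}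
    (h0 : ∀ f, (Φ f).eval 0 = f)
    (h1 : ∀ f, (Φ f).map (Φ : A →+* Polynomial A) =
      ((Φ f).map Polynomial.C).comp (Polynomial.X + Polynomial.C Polynomial.X)) : Co Φ := by
  refine ⟨h0, fun b i => ?_⟩
  have h2 := congrArg (fun f => Polynomial.coeff f i) (h1 b)
  simp only [Polynomial.coeff_map] at h2
  rw [← Polynomial.taylor_apply, Polynomial.taylor_coeff, hasse_map, Polynomial.eval_map,
    Polynomial.eval₂_C_X] at h2
  exact h2

/-- Homogeneous actions of the additive group raise the weights. -/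
lemma raise_af {l : ℕ}
    (hhom : ∀ i j, IsWeightedHomogeneous w ((Φ (X i)).coeff j) (w i + j * l)) (d : ℕ)
    (f : MvPolynomial (Fin n) k) (hf : f ∈ EI (X : Fin n → MvPolynomial (Fin n) k) w d) :
    W (EI (X : Fin n → MvPolynomial (Fin n) k) w) l d (Φ f) := by
  have hF := isFilt_EI (X : Fin n → MvPolynomial (Fin n) k) w
  have hx : ∀ i, W (EI (X : Fin n → MvPolynomial (Fin n) k) w) l (w i : ℤ) (Φ (X i)) := by
    intro i
    rw [W_nat]
    intro j
    exact hom_mem_EI w (hhom i j)
  have h0 : ∀ f, W (EI (X : Fin n → MvPolynomial (Fin n) k) w) l 0 (Φ f) := by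
    intro f
    induction f using MvPolynomial.induction_on with
    | C a =>
      have h1 : Φ (C a) = Polynomial.C (C a) := Φ.commutes a
      rw [h1]
      exact W_C (F_nonpos hF le_rfl _)
    | add f g hf hg =>
      rw [map_add]
      exact W_add hf hg
    | mul_X f i hf =>
      rw [map_mul]
      have h1 := W_mul hF hf (hx i)
      exact W_anti hF (by omega) h1
  unfold EI at hf
  induction hf using Submodule.span_induction with
  | mem y hy =>
    obtain ⟨α, hα, rfl⟩ := hy
    have h1 : ∀ s : Finset (Fin n), W (EI (X : Fin n → MvPolynomial (Fin n) k) w) l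
        ((∑ i ∈ s, α i * w i : ℕ) : ℤ) (Φ (∏ i ∈ s, X i ^ α i)) := by
      classical
      intro s
      induction s using Finset.induction_on with
      | empty => exact h0 _
      | insert a s ha ih =>
        rw [Finset.sum_insert ha, Finset.prod_insert ha, map_mul, map_pow]
        have h2 := W_mul hF (W_pow hF (hx a) (α a)) ih
        push_cast at h2 ⊢
        exact h2
    exact W_anti hF (by exact_mod_cast hα) (h1 Finset.univ)
  | zero => rw [map_zero]; exact W_zero _
  | add y z _ _ hy hz => rw [map_add]; exact W_add hy hz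
  | smul c y _ hy =>
    rw [smul_eq_mul, map_mul]
    have h1 := W_mul hF (h0 c) hy
    rwa [zero_add] at h1

/-- The data of a homogeneous action. -/
theorem dat_af {l : ℕ} (hl : 0 < l) (hΦ : Co Φ)
    (hhom : ∀ i j, IsWeightedHomogeneous w ((Φ (X i)).coeff j) (w i + j * l))
    (hder : ∀ (K : Type u) [Field K] [Algebra k K] (z : Fin n → K),
      (∀ j, aeval z ((Φ (X j)).coeff 1) = 0) → ∀ i, 0 < w i → z i = 0) :
    Dat Φ (EI (X : Fin n → MvPolynomial (Fin n) k) w) l where
  co := hΦ
  filt := isFilt_EI _ w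
  pos := hl
  raise := fun d a ha => raise_af w hhom d a ha
  lead := by
    intro d hd a ha
    obtain ⟨M0, hM0⟩ := large_comb' w (fun j => (Φ (X j)).coeff 1) (fun j => w j + 1 * l)
      (fun j => hhom j 1) (rad_of_zero w _ hder)
    refine ⟨M0 + 1, ?_⟩
    have h1 := hM0 ((M0 + 1) * d) (by
      have := Nat.le_mul_of_pos_right (M0 + 1) hd
      omega) _ (pow_mem_EI _ w ha (M0 + 1))
    unfold leadI
    refine Ideal.mem_sup_right (Ideal.span_mono ?_ h1)
    rintro _ ⟨j, g, hg, rfl⟩
    rw [one_mul] at hg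
    exact ⟨w j, X j, hom_mem_EI w (isWeightedHomogeneous_X k w j), g, hg, rfl⟩

lemma free_af (a : k) (hfix : ∀ (K : Type u) [Field K] [Algebra k K] (z : Fin n → K),
      (∀ j, aeval z ((Φ (X j)).eval (C a)) = z j) → ∀ i, 0 < w i → z i = 0) :
    Free Φ (EI (X : Fin n → MvPolynomial (Fin n) k) w) a := by
  intro P hP hPa
  refine EI_one_le w fun i hi => ?_
  rw [← pt_eq_zero P]
  refine hfix _ (fun i => algebraMap _ _ (Ideal.Quotient.mk P (X i))) (fun j => ?_) i hi
  rw [aeval_pt]
  congr 1
  have h1 := hPa (X j)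
  rw [ev_apply] at h1
  exact Ideal.Quotient.eq.2 h1

lemma free0_af (hder : ∀ (K : Type u) [Field K] [Algebra k K] (z : Fin n → K),
      (∀ j, aeval z ((Φ (X j)).coeff 1) = 0) → ∀ i, 0 < w i → z i = 0) :
    Free0 Φ (EI (X : Fin n → MvPolynomial (Fin n) k) w) := by
  intro P hP hPa
  refine EI_one_le w fun i hi => ?_
  rw [← pt_eq_zero P]
  refine hder _ (fun i => algebraMap _ _ (Ideal.Quotient.mk P (X i))) (fun j => ?_) i hi
  rw [aeval_pt, pt_eq_zero]
  exact hPa (X j)

end act

end Pool.Agent.W559.Ga
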