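import Pool.Agent.H519R3.RE.X6

set_option autoImplicit false
set_option linter.unusedSectionVars false

open Polynomial

universe u v

namespace Pool.Agent.W559.Ga

section basic

variable {k A : Type u} [Field k] [CommRing A] [Algebra k A]

/-- Actions of the additive group on the spectrum of an algebra, in terms of the coaction
`Φ b = ∑ b_i t ^ i`. -/
structure Co (Φ : A →ₐ[k] A[X]) : Prop where
  zero : ∀ b, (Φ b).eval 0 = b
  assoc : ∀ b i, Φ ((Φ b).coeff i) = hasseDeriv i (Φ b)

/-- The automorphism given by an element of the additive group. -/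
noncomputable def ev (Φ : A →ₐ[k] A[X]) (a : k) : A →ₐ[k] A :=
  ((Polynomial.aeval (algebraMap k A a) : A[X] →ₐ[A] A).restrictScalars k).comp Φ

lemma ev_apply (Φ : A →ₐ[k] A[X]) (a : k) (b : A) :
    ev Φ a b = (Φ b).eval (algebraMap k A a) := by
  change Polynomial.aeval (algebraMap k A a) (Φ b) = _
  rw [Polynomial.coe_aeval_eq_eval]

variable {Φ : A →ₐ[k] A[X]} (hΦ : Co Φ)

include hΦ

lemma coeff_zero' (b : A) : (Φ b).coeff 0 = b := by
  rw [Polynomial.coeff_zero_eq_eval_zero, hΦ.zero]

lemma ev_zero (b : A) : ev Φ 0 b = b := by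
  rw [ev_apply, map_zero, hΦ.zero]

/-- The coefficients. -/
lemma map_ev (a : k) (b : A) :
    (Φ b).map (ev Φ a : A →+* A) = (Φ b).comp (X + C (algebraMap k A a)) := by
  ext i
  rw [coeff_map]
  change ev Φ a ((Φ b).coeff i) = _
  rw [ev_apply, hΦ.assoc, ← taylor_apply, taylor_coeff]

end basic

section taylor

variable {A : Type u} [CommRing A]

lemma hasse_sum (f : A[X]) (a : A) (N : ℕ) (hN : f.natDegree < N) :
    ∑ i ∈ Finset.range N, C (a ^ i) * hasseDeriv i f = f.comp (X + C a) := by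
  have h1 : (f.comp (X + C a)) = f.sum fun n c => C c * (X + C a) ^ n := comp_eq_sum_left
  have h2 : ∀ i, hasseDeriv i f = f.sum fun n c => hasseDeriv i (monomial n c) := by
    intro i
    conv_lhs => rw [← sum_monomial_eq f]
    rw [Polynomial.sum_def, map_sum, Polynomial.sum_def]
  rw [h1]
  simp only [h2, Polynomial.sum_def, Finset.mul_sum]
  rw [Finset.sum_comm]
  refine Finset.sum_congr rfl fun n hn => ?_
  have hnN : n < N := lt_of_le_of_lt (le_natDegree_of_mem_supp n hn) hN
  have h3 : ∀ i ∈ Finset.range N, C (a ^ i) * hasseDeriv i (monomial n (f.coeff n)) =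
      if i ∈ Finset.range (n + 1) then C (f.coeff n) *
        (C a ^ i * X ^ (n - i) * (n.choose i : A[X])) else 0 := by
    intro i _
    rw [hasseDeriv_monomial]
    split_ifs with h
    · rw [← C_mul_X_pow_eq_monomial, C_mul, C_pow]
      have : (C (n.choose i : A) : A[X]) = (n.choose i : A[X]) := by simp
      rw [this]
      ring
    · rw [Nat.choose_eq_zero_of_lt (by simpa using h), Nat.cast_zero, zero_mul, map_zero, mul_zero]
  rw [Finset.sum_congr rfl h3, ← Finset.sum_filter]
  have h4 : (Finset.range N).filter (fun i => i ∈ Finset.range (n + 1)) =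
      Finset.range (n + 1) := by
    ext i
    simp only [Finset.mem_filter, Finset.mem_range]
    omega
  rw [h4, ← Finset.mul_sum, add_comm X (C a), add_pow]

end taylor

section basic2

variable {k A : Type u} [Field k] [CommRing A] [Algebra k A] {Φ : A →ₐ[k] A[X]} (hΦ : Co Φ)

include hΦ

lemma Phi_ev (a : k) (b : A) : Φ (ev Φ a b) = (Φ b).comp (X + C (algebraMap k A a)) := by
  rw [ev_apply, eval_eq_sum_range, map_sum,
    ← hasse_sum (Φ b) (algebraMap k A a) _ (Nat.lt_succ_self _)]
  refine Finset.sum_congr rfl fun i _ => ?_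
  rw [map_mul, hΦ.assoc, ← map_pow, AlgHom.commutes, mul_comm]
  rfl

lemma ev_add (a a' : k) (b : A) : ev Φ (a + a') b = ev Φ a (ev Φ a' b) := by
  rw [ev_apply Φ a (ev Φ a' b), Phi_ev hΦ, eval_comp, eval_add, eval_X, eval_C, ← map_add,
    ev_apply]

lemma Phi_D (b : A) : Φ ((Φ b).coeff 1) = derivative (Φ b) := by
  rw [hΦ.assoc, hasseDeriv_one]

lemma D_coeff (b : A) (i : ℕ) : (Φ ((Φ b).coeff i)).coeff 1 = (i + 1) * (Φ b).coeff (i + 1) := by
  rw [hΦ.assoc, hasseDeriv_coeff, add_comm 1 i]
  have : (i + 1).choose i = i + 1 := Nat.choose_succ_self_right i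
  rw [this]
  push_cast
  ring

/-- The automorphism. -/
noncomputable def evE (a : k) : A ≃ₐ[k] A :=
  AlgEquiv.ofAlgHom (ev Φ a) (ev Φ (-a))
    (by
      ext b
      change ev Φ a (ev Φ (-a) b) = b
      rw [← ev_add hΦ, add_neg_cancel, ev_zero hΦ])
    (by
      ext b
      change ev Φ (-a) (ev Φ a b) = b
      rw [← ev_add hΦ, neg_add_cancel, ev_zero hΦ])

lemma evE_apply (a : k) (b : A) : evE hΦ a b = ev Φ a b := rfl

lemma evE_iter (a : k) (j : ℕ) (b : A) : (evE hΦ a)^[j] b = ev Φ (j * a) b := by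
  induction j with
  | zero => rw [Nat.cast_zero, zero_mul, ev_zero hΦ]; rfl
  | succ j ih =>
    rw [Function.iterate_succ_apply', ih, evE_apply, ← ev_add hΦ]
    congr 2
    push_cast
    ring

lemma evE_p {p : ℕ} (hpk : (p : k) = 0) (a : k) (b : A) : (evE hΦ a)^[p] b = b := by
  rw [evE_iter, hpk, zero_mul, ev_zero hΦ]

/-- The derivation. -/
noncomputable def D1 : Derivation k A A where
  toFun b := (Φ b).coeff 1
  map_add' a b := by rw [map_add, coeff_add]
  map_smul' r b := by rw [map_smul, coeff_smul]; rfl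
  map_one_eq_zero' := by
    change (Φ 1).coeff 1 = 0
    rw [map_one, coeff_one, if_neg (by omega)]
  leibniz' a b := by
    change (Φ (a * b)).coeff 1 = a • (Φ b).coeff 1 + b • (Φ a).coeff 1
    rw [map_mul, mul_coeff_one, coeff_zero' hΦ, coeff_zero' hΦ, smul_eq_mul, smul_eq_mul]
    ring

lemma D1_apply (b : A) : D1 hΦ b = (Φ b).coeff 1 := rfl

lemma D1_iter (b : A) (j : ℕ) : (D1 hΦ)^[j] b = (j.factorial : A) * (Φ b).coeff j := by
  induction j with
  | zero => rw [Nat.factorial_zero, Nat.cast_one, one_mul, coeff_zero' hΦ]; rfl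
  | succ j ih =>
    rw [Function.iterate_succ_apply', ih, Derivation.leibniz, Derivation.map_natCast, smul_zero,
      add_zero, smul_eq_mul, D1_apply, D_coeff hΦ, Nat.factorial_succ]
    push_cast
    ring

lemma D1_p {p : ℕ} (hp : p.Prime) (hpk : (p : k) = 0) (b : A) : (D1 hΦ)^[p] b = 0 := by
  rw [D1_iter]
  obtain ⟨m, rfl⟩ : ∃ m, p = m + 1 := ⟨p - 1, by have := hp.pos; omega⟩
  have h1 : ((m + 1 : ℕ) : A) = 0 := by rw [← map_natCast (algebraMap k A), hpk, map_zero]
  rw [Nat.factorial_succ, Nat.cast_mul, h1, zero_mul, zero_mul]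

end basic2

end Pool.Agent.W559.Ga
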