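import Pool.Agent.W559.Ga.Ld

set_option autoImplicit false
set_option linter.unusedSectionVars false

open Polynomial Pool.Agent.H519R3.RS Pool.Agent.H519R3.RE

universe u v

namespace Pool.Agent.W559.Ga

section gal

/-- Two points with the same image in the quotient by a finite cyclic group: the elementwise
version. -/
lemma root_claim {R L : Type*} [CommRing R] [CommRing L] [IsDomain L] (τ : R ≃+* R) (n : ℕ)
    (hn : 0 < n) (hτ : ∀ r, τ^[n] r = r) (x y : R →+* L)
    (hxy : ∀ r, τ r = r → x r = y r) (f : R) : ∃ j < n, y f = x (τ^[j] f) := by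
  let P : R[X] := ∏ j ∈ Finset.range n, (X - C (τ^[j] f))
  have hP : P.map (τ : R →+* R) = P := by
    have h1 : P.map (τ : R →+* R) = ∏ j ∈ Finset.range n, (X - C (τ^[j + 1] f)) := by
      simp only [P, Polynomial.map_prod, Polynomial.map_sub, Polynomial.map_X, Polynomial.map_C]
      refine Finset.prod_congr rfl fun j _ => ?_
      rw [Function.iterate_succ_apply']
      rfl
    obtain ⟨m, rfl⟩ : ∃ m, n = m + 1 := ⟨n - 1, by omega⟩
    rw [h1, Finset.prod_range_succ, hτ]
    change _ = ∏ j ∈ Finset.range (m + 1), (X - C (τ^[j] f))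
    rw [Finset.prod_range_succ']
    rfl
  have hxyP : P.map x = P.map y := by
    ext i
    rw [coeff_map, coeff_map]
    apply hxy
    have h1 := congrArg (fun g => coeff g i) hP
    simp only [coeff_map] at h1
    exact h1
  have h1 : (P.map x).eval (y f) = 0 := by
    rw [hxyP, eval_map, eval₂_hom]
    have h2 : P.eval f = 0 := by
      rw [eval_prod]
      apply Finset.prod_eq_zero (Finset.mem_range.2 hn)
      simp
    rw [h2, map_zero]
  simp only [P, Polynomial.map_prod, Polynomial.map_sub, Polynomial.map_X, Polynomial.map_C,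
    eval_prod, eval_sub, eval_X, eval_C] at h1
  obtain ⟨j, hj, hj0⟩ := Finset.prod_eq_zero_iff.1 h1
  exact ⟨j, Finset.mem_range.1 hj, sub_eq_zero.1 hj0⟩

/-- Two points with the same image in the quotient by a finite cyclic group are conjugate. -/
lemma gal_claim {R L : Type*} [CommRing R] [CommRing L] [IsDomain L] (τ : R ≃+* R) (n : ℕ)
    (hn : 0 < n) (hτ : ∀ r, τ^[n] r = r) (x y : R →+* L)
    (hxy : ∀ r, τ r = r → x r = y r) : ∃ j < n, ∀ f, y f = x (τ^[j] f) := by
  by_contra hcon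
  push Not at hcon
  have h1 : ∀ j : ℕ, ∃ f, j < n → y f ≠ x (τ^[j] f) := by
    intro j
    by_cases hj : j < n
    · obtain ⟨f, hf⟩ := hcon j hj
      exact ⟨f, fun _ => hf⟩
    · exact ⟨0, fun h => absurd h hj⟩
  choose f hf using h1
  let G : R[X] := ∑ j ∈ Finset.range n, C (f j) * X ^ j
  let T : R[X] ≃+* R[X] := Polynomial.mapEquiv τ
  have hT : ∀ (m : ℕ) (g : R[X]) (i : ℕ), (T^[m] g).coeff i = τ^[m] (g.coeff i) := by
    intro m
    induction m with
    | zero => intro g i; rfl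
    | succ m ih =>
      intro g i
      rw [Function.iterate_succ_apply', Function.iterate_succ_apply', ← ih]
      change ((T^[m] g).map (τ : R →+* R)).coeff i = _
      rw [coeff_map]
      rfl
  obtain ⟨j, hj, hG⟩ := root_claim T n hn (fun r => by
    ext i
    rw [hT, hτ]) (mapRingHom x) (mapRingHom y) (fun r hr => by
    ext i
    rw [coe_mapRingHom, coe_mapRingHom, coeff_map, coeff_map]
    apply hxy
    have h2 := hT 1 r i
    rw [Function.iterate_one, Function.iterate_one, hr] at h2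
    exact h2.symm) G
  have h3 := congrArg (fun g => coeff g j) hG
  simp only [coe_mapRingHom, coeff_map, hT] at h3
  have h4 : G.coeff j = f j := by
    rw [finsetSum_coeff]
    simp only [coeff_C_mul_X_pow]
    rw [Finset.sum_ite_eq, if_pos (Finset.mem_range.2 hj)]
  rw [h4] at h3
  exact hf j hj h3

end gal

section quo

variable {k A : Type u} [Field k] [CommRing A] [IsDomain A] [Algebra k A] {Φ : A →ₐ[k] A[X]}
  {p : ℕ} (hp : p.Prime) [CharP k p] (c : k) {F : ℕ → Ideal A} (hΦ : Co Φ)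

include hp hΦ in
/-- Integrality over the quotient. -/
lemma quo_int : Algebra.IsIntegral (Quo Φ p c) A := by
  have _ : CharP A p := charA k A p
  have _ : Fact p.Prime := ⟨hp⟩
  constructor
  intro f
  by_cases hc : c = 0
  · subst hc
    have hfp : f ^ p ∈ Quo Φ p (0 : k) := by
      rw [mem_Quo_zero hΦ hp, Derivation.leibniz_pow, nsmul_eq_mul, CharP.cast_eq_zero, zero_mul]
    refine ⟨X ^ p - C ⟨f ^ p, hfp⟩, monic_X_pow_sub_C _ hp.ne_zero, ?_⟩
    rw [eval₂_sub, eval₂_pow, eval₂_X, eval₂_C]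
    exact sub_self _
  · let τ := evE hΦ c
    have hτ : ∀ b, τ^[p] b = b := evE_p hΦ (CharP.cast_eq_zero k p) c
    let P : A[X] := ∏ j ∈ Finset.range p, (X - C (τ^[j] f))
    have hPm : P.Monic := monic_prod_of_monic _ _ fun g _ => monic_X_sub_C _
    have hP : P.map (τ : A →+* A) = P := by
      have h1 : P.map (τ : A →+* A) = ∏ j ∈ Finset.range p, (X - C (τ^[j + 1] f)) := by
        simp only [P, Polynomial.map_prod, Polynomial.map_sub, Polynomial.map_X,
          Polynomial.map_C]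
        refine Finset.prod_congr rfl fun j _ => ?_
        rw [Function.iterate_succ_apply']
        rfl
      obtain ⟨m, hm⟩ : ∃ m, p = m + 1 := ⟨p - 1, by have := hp.pos; omega⟩
      rw [h1]
      simp only [P]
      rw [hm] at hτ ⊢
      rw [Finset.prod_range_succ, hτ, Finset.prod_range_succ']
      rfl
    have hc' : ∀ i, P.coeff i ∈ Quo Φ p c := by
      intro i
      rw [mem_Quo_iff hΦ hp c hc]
      have h1 := congrArg (fun g => coeff g i) hP
      simp only [coeff_map] at h1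
      exact h1
    have h2 : P ∈ lifts (algebraMap (Quo Φ p c) A) := by
      rw [lifts_iff_coeff_lifts]
      exact fun i => ⟨⟨P.coeff i, hc' i⟩, rfl⟩
    obtain ⟨P', hP', -, hP'm⟩ := lifts_and_natDegree_eq_and_monic h2 hPm
    refine ⟨P', hP'm, ?_⟩
    rw [eval₂_eq_eval_map, hP', eval_prod]
    apply Finset.prod_eq_zero (Finset.mem_range.2 hp.pos)
    simp

/-- The fixed points on the quotient by a group of order `p`. -/
lemma free_quo (hc : c ≠ 0) (a : k)
    (h : ∀ j : ℕ, a - j * c ≠ 0 → Free Φ F (a - j * c)) (ha : a ^ p - c ^ (p - 1) * a ≠ 0) :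
    Free (Phi' hp hΦ c) (restr F (Quo Φ p c)) (a ^ p - c ^ (p - 1) * a) := by
  intro P hP hPa
  have _ : Fact p.Prime := ⟨hp⟩
  have hint := quo_int hp c hΦ
  obtain ⟨Q, hQ, hQP⟩ := Ideal.exists_ideal_over_prime_of_isIntegral P (⊥ : Ideal A) (by
    intro z hz
    rw [Ideal.mem_comap, Ideal.mem_bot] at hz
    have h1 : z = 0 := Subtype.ext hz
    rw [h1]
    exact P.zero_mem)
  obtain ⟨hQp, hQP⟩ := hQP
  have hτ : ∀ b, (evE hΦ c : A ≃+* A)^[p] b = b := evE_p hΦ (CharP.cast_eq_zero k p) c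
  have _ := hQp
  let x : A →+* A ⧸ Q := Ideal.Quotient.mk Q
  let y : A →+* A ⧸ Q := x.comp (ev Φ a : A →+* A)
  obtain ⟨j, hj, hxy⟩ := gal_claim (evE hΦ c : A ≃+* A) p hp.pos hτ x y (by
    intro r hr
    have hr' : r ∈ Quo Φ p c := (mem_Quo_iff hΦ hp c hc).2 hr
    have h1 := hPa ⟨r, hr'⟩
    rw [← hQP, Ideal.mem_comap] at h1
    have h2 : algebraMap (Quo Φ p c) A (ev (Phi' hp hΦ c) (a ^ p - c ^ (p - 1) * a) ⟨r, hr'⟩ -
        ⟨r, hr'⟩) = ev Φ a r - r := by
      rw [map_sub]
      change ((ev (Phi' hp hΦ c) (a ^ p - c ^ (p - 1) * a) ⟨r, hr'⟩ : Quo Φ p c) : A) - r = _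
      rw [ev_Phi' hp hΦ c a ⟨r, hr'⟩]
    rw [h2] at h1
    exact (Ideal.Quotient.eq.2 h1).symm)
  have hne : a - j * c ≠ 0 := by
    intro h0
    apply ha
    have h1 : a = j * c := sub_eq_zero.1 h0
    have h2 : ((j : k)) ^ p = j := by
      have _ : ExpChar k p := ExpChar.prime hp
      have h3 := map_natCast (frobenius k p) j
      rwa [frobenius_def] at h3
    have h5 : p - 1 + 1 = p := by have := hp.pos; omega
    rw [h1, mul_pow, h2]
    have h6 : c ^ (p - 1) * (j * c) = j * c ^ p := by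
      rw [← h5, pow_succ, Nat.add_sub_cancel]
      ring
    rw [h6, sub_self]
  have h1 := h j hne Q hQp (by
    intro b
    have h2 := hxy (ev Φ (-(j * c)) b)
    have h3 : (evE hΦ c : A ≃+* A)^[j] (ev Φ (-(j * c)) b) = b := by
      have h4 := evE_iter hΦ c j (ev Φ (-(j * c)) b)
      rw [← ev_add hΦ, add_neg_cancel, ev_zero hΦ] at h4
      exact h4
    rw [h3] at h2
    have h5 : y (ev Φ (-(j * c)) b) = x (ev Φ (a - j * c) b) := by
      change x (ev Φ a (ev Φ (-(j * c)) b)) = _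
      rw [← ev_add hΦ, sub_eq_add_neg]
    rw [h5] at h2
    exact Ideal.Quotient.eq.1 h2)
  intro b hb
  rw [← hQP, Ideal.mem_comap]
  exact h1 hb

/-- The Frobenius map into the quotient by the derivation. -/
noncomputable def fr (hp : p.Prime) (hΦ : Co Φ) : A →+* Quo Φ p (0 : k) :=
  have _ : CharP A p := charA k A p
  have _ : ExpChar A p := ExpChar.prime hp
  (frobenius A p).codRestrict (Quo Φ p (0 : k)).toSubring fun f => by
    change f ^ p ∈ Quo Φ p (0 : k)
    rw [mem_Quo_zero hΦ hp, Derivation.leibniz_pow, nsmul_eq_mul, CharP.cast_eq_zero, zero_mul]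

lemma coe_fr (f : A) : ((fr hp hΦ f : Quo Φ p (0 : k)) : A) = f ^ p := rfl

lemma free_quo0 (a : k) (h : Free Φ F a) :
    Free (Phi' hp hΦ 0) (restr F (Quo Φ p (0 : k))) (a ^ p) := by
  intro P hP hPa
  have h1 := h (P.comap (fr hp hΦ)) (hP.comap _) (by
    intro b
    rw [Ideal.mem_comap, map_sub]
    have h2 : fr hp hΦ (ev Φ a b) = ev (Phi' hp hΦ 0) (a ^ p) (fr hp hΦ b) := by
      apply Subtype.ext
      have h3 := ev_Phi' hp hΦ (0 : k) a (fr hp hΦ b)
      have h4 : p - 1 ≠ 0 := by have := hp.one_lt; omega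
      rw [zero_pow h4, zero_mul, sub_zero] at h3
      rw [h3, coe_fr, coe_fr, map_pow]
    rw [h2]
    exact hPa _)
  intro b hb
  have h2 : fr hp hΦ b ∈ P := h1 hb
  have h3 : fr hp hΦ b = b ^ p := Subtype.ext (coe_fr hp hΦ b)
  rw [h3] at h2
  exact hP.mem_of_pow_mem _ h2

lemma coeff_fr (b : A) (i : ℕ) : (Phi' hp hΦ 0 (fr hp hΦ b)).coeff i =
    fr hp hΦ ((Φ b).coeff i) := by
  have _ : CharP A p := charA k A p
  have _ : ExpChar A p := ExpChar.prime hp
  have h1 : Phi' hp hΦ 0 (fr hp hΦ b) = (Φ b).map (fr hp hΦ) := by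
    apply Phi'_unique hp hΦ 0
    rw [coe_fr, map_pow, pow_eq_comp hp, map_zero, Lam_zero hp, Polynomial.map_map]
    rfl
  rw [h1, coeff_map]

lemma free0_quo0 (h : Free0 Φ F) :
    Free0 (Phi' hp hΦ 0) (restr F (Quo Φ p (0 : k))) := by
  intro P hP hPa
  have h1 := h (P.comap (fr hp hΦ)) (hP.comap _) (by
    intro b
    rw [Ideal.mem_comap, ← coeff_fr]
    exact hPa _)
  intro b hb
  have h2 : fr hp hΦ b ∈ P := h1 hb
  have h3 : fr hp hΦ b = b ^ p := Subtype.ext (coe_fr hp hΦ b)
  rw [h3] at h2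
  exact hP.mem_of_pow_mem _ h2

end quo

end Pool.Agent.W559.Ga
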