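import Pool.Agent.W559.Ga.Nm

set_option autoImplicit false
set_option linter.unusedSectionVars false

open Polynomial Pool.Agent.H519R3.RS Pool.Agent.H519R3.RE

universe u v

namespace Pool.Agent.W559.Ga

section le

variable {A : Type u} [CommRing A] {F : ℕ → Ideal A} (hF : IsFilt F)

include hF in
lemma leadI_le {δ : A → A} {l : ℕ} (hδ : ∀ d, ∀ a ∈ F d, δ a ∈ F (d + l)) (m : ℕ) :
    leadI δ F l m ≤ F m := by
  unfold leadI
  refine sup_le (hF.anti _ _ (Nat.le_succ m)) ?_
  rw [Ideal.span_le]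
  rintro y ⟨e, c, hc, b, hb, rfl⟩
  exact hF.anti _ _ (by omega) (hF.mul _ _ (Ideal.mul_mem_mul hb (hδ e c hc)))

end le

section data

variable {k A : Type u} [Field k] [CommRing A] [Algebra k A]

/-- An action of the additive group which raises the weights, and whose leading form has no zeros
outside the vertex. -/
structure Dat (Φ : A →ₐ[k] A[X]) (F : ℕ → Ideal A) (l : ℕ) : Prop where
  co : Co Φ
  filt : IsFilt F
  pos : 0 < l
  raise : ∀ d : ℕ, ∀ a ∈ F d, W F l d (Φ a)
  lead : ∀ d, 1 ≤ d → ∀ a ∈ F d, ∃ N : ℕ, a ^ N ∈ leadI (fun b => (Φ b).coeff 1) F l (N * d)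

/-- The fixed points of an element are in the centre. -/
def Free (Φ : A →ₐ[k] A[X]) (F : ℕ → Ideal A) (a : k) : Prop :=
  ∀ P : Ideal A, P.IsPrime → (∀ b, ev Φ a b - b ∈ P) → F 1 ≤ P

/-- The zeros of the derivation are in the centre. -/
def Free0 (Φ : A →ₐ[k] A[X]) (F : ℕ → Ideal A) : Prop :=
  ∀ P : Ideal A, P.IsPrime → (∀ b, (Φ b).coeff 1 ∈ P) → F 1 ≤ P

variable {Φ : A →ₐ[k] A[X]} {F : ℕ → Ideal A} {l : ℕ}

lemma Dat.one (h : Dat Φ F l) (d : ℕ) (a : A) (ha : a ∈ F d) : (Φ a).coeff 1 ∈ F (d + l) := by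
  have h1 := (W_nat.1 (h.raise d a ha)) 1
  rwa [one_mul] at h1

lemma Dat.eval (h : Dat Φ F l) (d : ℕ) (a : A) (ha : a ∈ F d) (g : k) :
    ev Φ g a - a - algebraMap k A g * (Φ a).coeff 1 ∈ F (d + 2 * l) := by
  have h1 := W_nat.1 (h.raise d a ha)
  have h2 : ev Φ g a = ∑ i ∈ Finset.range ((Φ a).natDegree + 2),
      (Φ a).coeff i * algebraMap k A g ^ i := by
    rw [ev_apply, eval_eq_sum_range' (Nat.lt_add_of_pos_right two_pos)]
  rw [h2, Finset.sum_range_succ', Finset.sum_range_succ', coeff_zero' h.co]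
  have h3 : ∑ i ∈ Finset.range (Φ a).natDegree, (Φ a).coeff (i + 1 + 1) *
      algebraMap k A g ^ (i + 1 + 1) + (Φ a).coeff (0 + 1) * algebraMap k A g ^ (0 + 1) +
      a * algebraMap k A g ^ 0 - a - algebraMap k A g * (Φ a).coeff 1 =
      ∑ i ∈ Finset.range (Φ a).natDegree, (Φ a).coeff (i + 1 + 1) *
      algebraMap k A g ^ (i + 1 + 1) := by ring
  rw [h3]
  refine Ideal.sum_mem _ fun i _ => Ideal.mul_mem_right _ _ ?_
  refine h.filt.anti _ _ ?_ (h1 (i + 1 + 1))
  nlinarith [Nat.zero_le (i * l)]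

lemma Dat.diff (h : Dat Φ F l) (d : ℕ) (a : A) (ha : a ∈ F d) (g : k) :
    ev Φ g a - a ∈ F (d + l) := by
  have h1 : ev Φ g a - a = (ev Φ g a - a - algebraMap k A g * (Φ a).coeff 1) +
      algebraMap k A g * (Φ a).coeff 1 := by ring
  rw [h1]
  exact Ideal.add_mem _ (h.filt.anti _ _ (by omega) (h.eval d a ha g))
    (Ideal.mul_mem_left _ _ (h.one d a ha))

/-- The leading forms of the derivation and of the automorphisms. -/
lemma Dat.lead_le (h : Dat Φ F l) {g : k} (hg : g ≠ 0) (m : ℕ) :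
    leadI (fun b => (Φ b).coeff 1) F l m ≤ leadI (fun b => ev Φ g b - b) F l m := by
  have hl := h.pos
  unfold leadI
  refine sup_le le_sup_left ?_
  rw [Ideal.span_le]
  rintro y ⟨e, c, hc, b, hb, rfl⟩
  have h1 : b * (Φ c).coeff 1 = (-(algebraMap k A g⁻¹ * b)) * (ev Φ g c - c -
      algebraMap k A g * (Φ c).coeff 1) + (algebraMap k A g⁻¹ * b) * (ev Φ g c - c) := by
    have h2 : algebraMap k A g⁻¹ * algebraMap k A g = 1 := by
      rw [← map_mul, inv_mul_cancel₀ hg, map_one]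
    calc b * (Φ c).coeff 1 = (algebraMap k A g⁻¹ * algebraMap k A g) * (b * (Φ c).coeff 1) := by
          rw [h2, one_mul]
      _ = _ := by ring
  change b * (Φ c).coeff 1 ∈ _
  rw [h1]
  refine Ideal.add_mem _ (Ideal.mem_sup_left ?_) (Ideal.mem_sup_right ?_)
  · refine h.filt.anti _ _ ?_ (h.filt.mul _ _ (Ideal.mul_mem_mul
      ((F (m - (e + l))).neg_mem (Ideal.mul_mem_left _ _ hb)) (h.eval e c hc g)))
    omega
  · exact Ideal.subset_span ⟨e, c, hc, _, Ideal.mul_mem_left _ _ hb, rfl⟩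

end data

section quo

variable {k A : Type u} [Field k] [CommRing A] [IsDomain A] [Algebra k A] {Φ : A →ₐ[k] A[X]}
  {p : ℕ} (hp : p.Prime) [CharP k p] (c : k) {F : ℕ → Ideal A} {l : ℕ} (h : Dat Φ F l)

include h in
lemma lead_key (m : ℕ) (z : A) (hz : z ∈ leadI (fun b => (Φ b).coeff 1) F l m) :
    ∃ y : Quo Φ p c, y ∈ leadI (fun b => (Phi' hp h.co c b).coeff 1)
      (restr F (Quo Φ p c)) (p * l) (p * m) ∧ z ^ p - (y : A) ∈ F (p * m + 1) := by
  have _ : Fact p.Prime := ⟨hp⟩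
  have _ : CharP A p := charA k A p
  have hF := h.filt
  have hF' : IsFilt (restr F (Quo Φ p c)) := isFilt_restr hF _
  have hle := leadI_le hF' (δ := fun b => (Phi' hp h.co c b).coeff 1) (l := p * l)
    (fun d a ha => by
      have h1 := W_nat.1 (raise' h.co hp c hF h.raise d a ha) 1
      rwa [one_mul] at h1) (p * m)
  obtain ⟨z1, hz1, z2, hz2, rfl⟩ := Submodule.mem_sup.1 hz
  have key : ∃ y : Quo Φ p c, y ∈ leadI (fun b => (Phi' hp h.co c b).coeff 1)
      (restr F (Quo Φ p c)) (p * l) (p * m) ∧ z2 ^ p - (y : A) ∈ F (p * m + 1) := by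
    clear hz hz1
    induction hz2 using Submodule.span_induction with
    | mem z hz =>
      obtain ⟨e, a, ha, b, hb, rfl⟩ := hz
      have h1 := nm_zero h.co hp c hF h.raise h.pos _ b hb
      have h2 := nm_one h.co hp c hF h.raise h.pos _ a ha
      have h3 := nm_zero h.co hp c hF h.raise h.pos _ a ha
      have hb' : ((nm hp h.co c b : Quo Φ p c) : A) ∈ F (p * (m - (e + l))) := by
        have h4 := Ideal.add_mem _ (hF.anti _ _ (Nat.le_succ _) h1)
          (show b ^ p ∈ F (p * (m - (e + l))) from ?_)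
        · rwa [sub_add_cancel] at h4
        · have h5 := F_pow hF (d := ((m - (e + l) : ℕ) : ℤ)) (by rwa [Int.toNat_natCast]) p
          rwa [← Nat.cast_mul, Int.toNat_natCast] at h5
      have ha' : ((nm hp h.co c a : Quo Φ p c) : A) ∈ F (p * e) := by
        have h4 := Ideal.add_mem _ (hF.anti _ _ (Nat.le_succ _) h3)
          (show a ^ p ∈ F (p * e) from ?_)
        · rwa [sub_add_cancel] at h4
        · have h5 := F_pow hF (d := (e : ℤ)) (by rwa [Int.toNat_natCast]) p
          rwa [← Nat.cast_mul, Int.toNat_natCast] at h5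
      refine ⟨nm hp h.co c b * (Phi' hp h.co c (nm hp h.co c a)).coeff 1,
        Ideal.mem_sup_right (Ideal.subset_span ⟨p * e, _, ha', _, ?_, rfl⟩), ?_⟩
      · rw [mem_restr]
        have h4 : p * m - (p * e + p * l) = p * (m - (e + l)) := by
          rw [← Nat.mul_add, ← Nat.mul_sub]
        rw [h4]
        exact hb'
      · have h4 : (b * (Φ a).coeff 1) ^ p - ((nm hp h.co c b *
            (Phi' hp h.co c (nm hp h.co c a)).coeff 1 : Quo Φ p c) : A) =
            (-(((nm hp h.co c b : Quo Φ p c) : A) - b ^ p)) * (Φ a).coeff 1 ^ p +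
            ((nm hp h.co c b : Quo Φ p c) : A) *
              (-((((Phi' hp h.co c (nm hp h.co c a)).coeff 1 : Quo Φ p c) : A) -
                (Φ a).coeff 1 ^ p)) := by
          change (b * (Φ a).coeff 1) ^ p - ((nm hp h.co c b : Quo Φ p c) : A) *
            (((Phi' hp h.co c (nm hp h.co c a)).coeff 1 : Quo Φ p c) : A) = _
          ring
        change (b * (Φ a).coeff 1) ^ p - _ ∈ _
        rw [h4]
        have hδp : (Φ a).coeff 1 ^ p ∈ F (p * (e + l)) := by
          have h5 := F_pow hF (d := ((e + l : ℕ) : ℤ)) (by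
            rw [Int.toNat_natCast]; exact h.one e a ha) p
          rwa [← Nat.cast_mul, Int.toNat_natCast] at h5
        have h6 : p * m + 1 ≤ p * (m - (e + l)) + 1 + p * (e + l) := by
          have : p * m ≤ p * ((m - (e + l)) + (e + l)) := Nat.mul_le_mul_left p (by omega)
          rw [Nat.mul_add] at this
          omega
        refine Ideal.add_mem _ ?_ ?_
        · exact hF.anti _ _ h6 (hF.mul _ _ (Ideal.mul_mem_mul (Ideal.neg_mem_iff _ |>.2 h1) hδp))
        · refine hF.anti _ _ ?_ (hF.mul _ _ (Ideal.mul_mem_mul hb'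
            (Ideal.neg_mem_iff _ |>.2 h2)))
          omega
    | zero =>
      refine ⟨0, Ideal.zero_mem _, ?_⟩
      rw [zero_pow hp.ne_zero]
      exact Ideal.sub_mem _ (Ideal.zero_mem _) (Ideal.zero_mem _)
    | add x x' _ _ hx hx' =>
      obtain ⟨y, hy, hy1⟩ := hx
      obtain ⟨y', hy', hy1'⟩ := hx'
      refine ⟨y + y', Ideal.add_mem _ hy hy', ?_⟩
      rw [add_pow_char]
      have h1 : x ^ p + x' ^ p - ((y + y' : Quo Φ p c) : A) =
          (x ^ p - (y : A)) + (x' ^ p - (y' : A)) := by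
        change x ^ p + x' ^ p - ((y : A) + (y' : A)) = _
        ring
      rw [h1]
      exact Ideal.add_mem _ hy1 hy1'
    | smul r x _ hx =>
      obtain ⟨y, hy, hy1⟩ := hx
      refine ⟨nm hp h.co c r * y, Ideal.mul_mem_left _ _ hy, ?_⟩
      have h1 : (r • x) ^ p - ((nm hp h.co c r * y : Quo Φ p c) : A) =
          r ^ p * (x ^ p - (y : A)) + (-(((nm hp h.co c r : Quo Φ p c) : A) - r ^ p)) *
            (y : A) := by
        change (r * x) ^ p - ((nm hp h.co c r : Quo Φ p c) : A) * (y : A) = _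
        ring
      rw [h1]
      refine Ideal.add_mem _ (Ideal.mul_mem_left _ _ hy1) ?_
      have h2 := nm_zero h.co hp c hF h.raise h.pos 0 r (by rw [hF.zero]; trivial)
      have h3 : (y : A) ∈ F (p * m) := hle hy
      refine hF.anti _ _ ?_ (hF.mul _ _ (Ideal.mul_mem_mul (Ideal.neg_mem_iff _ |>.2 h2) h3))
      omega
  obtain ⟨y, hy, hy1⟩ := key
  refine ⟨y, hy, ?_⟩
  rw [add_pow_char, add_sub_assoc]
  refine Ideal.add_mem _ ?_ hy1
  have h5 := F_pow hF (d := ((m + 1 : ℕ) : ℤ)) (by rwa [Int.toNat_natCast]) p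
  rw [← Nat.cast_mul, Int.toNat_natCast] at h5
  refine hF.anti _ _ ?_ h5
  have := hp.pos
  nlinarith

/-- The data on the quotient. -/
theorem Dat.quo : Dat (Phi' hp h.co c) (restr F (Quo Φ p c)) (p * l) where
  co := Phi'_co hp h.co c
  filt := isFilt_restr h.filt _
  pos := Nat.mul_pos hp.pos h.pos
  raise := fun d a ha => raise' h.co hp c h.filt h.raise d a ha
  lead := by
    intro d hd a ha
    obtain ⟨N, hN⟩ := h.lead d hd a ha
    obtain ⟨y, hy, hy1⟩ := lead_key hp c h (N * d) _ hN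
    refine ⟨N * p, ?_⟩
    have h1 : a ^ (N * p) = (a ^ (N * p) - y) + y := by ring
    have h2 : N * p * d = p * (N * d) := by ring
    rw [h1, h2]
    refine Ideal.add_mem _ (Ideal.mem_sup_left ?_) hy
    rw [mem_restr]
    rw [← pow_mul] at hy1
    exact hy1

end quo

end Pool.Agent.W559.Ga
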