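import Pool.Agent.W559.Ga.Wt

set_option autoImplicit false
set_option linter.unusedSectionVars false

open Polynomial Pool.Agent.H519R3.RS Pool.Agent.H519R3.RE

universe u v

namespace Pool.Agent.W559.Ga

section poly

variable {A : Type u} [CommRing A] [IsDomain A] {p : ℕ} (hp : p.Prime) [CharP A p]

/-- The norm of a polynomial. -/
noncomputable def pn (p : ℕ) (c : A) (G : A[X]) : A[X] :=
  ∏ j ∈ Finset.range p, G.comp (X + C ((j : A) * c))

omit [IsDomain A] in
include hp in
lemma pn_shift (c : A) (G : A[X]) : (pn p c G).comp (X + C c) = pn p c G := by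
  have h1 : (pn p c G).comp (X + C c) =
      ∏ j ∈ Finset.range p, G.comp (X + C (((j + 1 : ℕ) : A) * c)) := by
    rw [pn, ← coe_compRingHom_apply, map_prod]
    refine Finset.prod_congr rfl fun j _ => ?_
    rw [coe_compRingHom_apply, comp_assoc, add_comp, X_comp, C_comp, add_assoc, ← C_add]
    congr 3
    push_cast
    ring
  rw [h1, pn]
  obtain ⟨m, rfl⟩ : ∃ m, p = m + 1 := ⟨p - 1, by have := hp.pos; omega⟩
  rw [Finset.prod_range_succ, Finset.prod_range_succ', CharP.cast_eq_zero, Nat.cast_zero]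

omit [IsDomain A] in
include hp in
lemma pow_eq_comp (G : A[X]) :
    have _ : ExpChar A p := ExpChar.prime hp
    G ^ p = (G.map (frobenius A p)).comp (X ^ p) := by
  intro _
  rw [← map_frobenius_expand p G, expand_eq_comp_X_pow, Polynomial.map_comp, Polynomial.map_pow,
    map_X]

include hp in
lemma pn_digits (c : A) (G : A[X]) : ∃ Q : A[X], pn p c G = Q.comp (Lam p c) := by
  by_cases hc : c = 0
  · subst hc
    have _ : ExpChar A p := ExpChar.prime hp
    refine ⟨G.map (frobenius A p), ?_⟩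
    rw [Lam_zero hp, ← pow_eq_comp hp G, pn]
    simp
  · exact inv_shift hp c hc _ _ le_rfl (pn_shift hp c G)

end poly

section wt

variable {A : Type u} [CommRing A] {F : ℕ → Ideal A} (hF : IsFilt F) {l : ℕ}

include hF in
lemma W_prod_sub {d : ℤ} (G : A[X]) (hG : W F l d G) (f : ℕ → A[X])
    (hf : ∀ j, W F l (d + l) (f j - G)) (n : ℕ) :
    W F l (n * d + l) (∏ j ∈ Finset.range n, f j - G ^ n) := by
  have hl : (0 : ℤ) ≤ l := Int.natCast_nonneg l
  induction n with
  | zero =>
    rw [Finset.prod_range_zero, pow_zero, sub_self]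
    exact W_zero _
  | succ n ih =>
    have h1 : ∏ j ∈ Finset.range (n + 1), f j - G ^ (n + 1) =
        (∏ j ∈ Finset.range n, f j - G ^ n) * f n + G ^ n * (f n - G) := by
      rw [Finset.prod_range_succ]; ring
    rw [h1]
    have h2 : W F l d (f n) := by
      have h3 := W_add (W_anti hF (by omega) (hf n)) hG
      rwa [sub_add_cancel] at h3
    refine W_add ?_ ?_
    · refine W_anti hF (le_of_eq ?_) (W_mul hF ih h2)
      push_cast
      ring
    · refine W_anti hF (le_of_eq ?_) (W_mul hF (W_pow hF hG n) (hf n))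
      push_cast
      ring

/-- The difference between the digits of the norm and the Frobenius powers. -/
lemma pn_digits_mem [IsDomain A] (hF : IsFilt F) {p : ℕ} (hp : p.Prime) [CharP A p] (hl : 0 < l)
    (c : A) (d : ℕ) (G : A[X]) (hG : W F l d G) (Q : A[X]) (hQ : pn p c G = Q.comp (Lam p c))
    (i : ℕ) : Q.coeff i - G.coeff i ^ p ∈ F (p * d + 1 + i * (p * l)) := by
  have _ : ExpChar A p := ExpChar.prime hp
  have hp2 : (2 : ℤ) ≤ p := by exact_mod_cast hp.two_le
  have hl1 : (1 : ℤ) ≤ l := by exact_mod_cast hl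
  have h1 : W F l (p * d + 1) ((Q - G.map (frobenius A p)).comp (Lam p c)) := by
    have h2 : (Q - G.map (frobenius A p)).comp (Lam p c) = (pn p c G - G ^ p) -
        ((G.map (frobenius A p)).comp (Lam p c) - (G.map (frobenius A p)).comp (X ^ p)) := by
      rw [sub_comp, hQ, pow_eq_comp hp G]
      ring
    rw [h2]
    refine W_sub ?_ ?_
    · refine W_anti hF ?_ (W_prod_sub hF G hG (fun j => G.comp (X + C ((j : A) * c)))
        (fun j => W_comp_shift_sub hF hG _) p)
      omega
    · refine W_anti hF ?_ (W_comp_sub hF (d := p * d) (m := p * l) (e := (p - 1) * l) ?_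
        (W_Lam hF hp c) (W_Xp hF) (W_Lam_sub hF c))
      · nlinarith
      · intro j
        rw [coeff_map, frobenius_def]
        have h3 := F_pow hF (hG j) p
        refine F_anti hF (le_of_eq ?_) h3
        ring
  have h2 := W_digits hF hp c (p * d + 1) _ _ le_rfl h1 i
  rw [coeff_sub, coeff_map, frobenius_def] at h2
  have h3 : ((p : ℤ) * d + 1 + i * (p * l)).toNat = p * d + 1 + i * (p * l) := by
    have : ((p : ℤ) * d + 1 + i * (p * l)) = ((p * d + 1 + i * (p * l) : ℕ) : ℤ) := by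
      push_cast; ring
    rw [this, Int.toNat_natCast]
  rwa [h3] at h2

end wt

section act

variable {k A : Type u} [Field k] [CommRing A] [IsDomain A] [Algebra k A] {Φ : A →ₐ[k] A[X]}
  (hΦ : Co Φ) {p : ℕ} (hp : p.Prime) [CharP k p] (c : k)

lemma Phi_nm (hΦ : Co Φ) (p : ℕ) (c : k) (f : A) :
    Φ (∏ j ∈ Finset.range p, ev Φ ((j : k) * c) f) = pn p (algebraMap k A c) (Φ f) := by
  rw [map_prod, pn]
  refine Finset.prod_congr rfl fun j _ => ?_
  rw [Phi_ev hΦ, map_mul, map_natCast]

/-- The norm. -/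
noncomputable def nm (hp : p.Prime) (hΦ : Co Φ) (c : k) (f : A) : Quo Φ p c :=
  ⟨∏ j ∈ Finset.range p, ev Φ ((j : k) * c) f, by
    have _ : CharP A p := charA k A p
    rw [mem_Quo, Phi_nm hΦ]
    exact pn_digits hp _ _⟩

include hΦ hp in
lemma mem_Quo_iff (hc : c ≠ 0) {b : A} : b ∈ Quo Φ p c ↔ ev Φ c b = b := by
  have _ : CharP A p := charA k A p
  constructor
  · intro h
    obtain ⟨Q, hQ⟩ := mem_Quo.1 h
    rw [ev_apply, hQ, eval_comp, Lam_eval_self hp, ← Lam_eval_zero hp (algebraMap k A c),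
      ← eval_comp, ← hQ, hΦ.zero]
  · intro h
    rw [mem_Quo]
    refine inv_shift hp (algebraMap k A c) ?_ _ (Φ b) le_rfl ?_
    · rwa [Ne, map_eq_zero_iff _ (FaithfulSMul.algebraMap_injective k A)]
    · rw [← Phi_ev hΦ, h]

include hp in
lemma mem_Quo_zero {b : A} : b ∈ Quo Φ p (0 : k) ↔ D1 hΦ b = 0 := by
  have _ : CharP A p := charA k A p
  have _ : ExpChar A p := ExpChar.prime hp
  constructor
  · intro h
    obtain ⟨Q, hQ⟩ := mem_Quo.1 h
    have h1 := congrArg derivative hQ
    rw [map_zero, Lam_zero hp, derivative_comp, derivative_X_pow, CharP.cast_eq_zero, C_0,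
      zero_mul, zero_mul, ← Phi_D hΦ] at h1
    have h2 := congrArg (fun f => eval 0 f) h1
    simp only [hΦ.zero, eval_zero] at h2
    exact h2
  · intro h
    rw [mem_Quo]
    refine ⟨contract p (Φ b), ?_⟩
    rw [map_zero, Lam_zero hp, ← expand_eq_comp_X_pow, expand_contract p _ hp.ne_zero]
    rw [← Phi_D hΦ]
    change Φ (D1 hΦ b) = 0
    rw [h, map_zero]

variable {F : ℕ → Ideal A} (hF : IsFilt F) {l : ℕ}

lemma W_nat {A : Type u} [CommRing A] {F : ℕ → Ideal A} {l d : ℕ} {f : A[X]} :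
    W F l d f ↔ ∀ i, f.coeff i ∈ F (d + i * l) := by
  have h : ∀ i : ℕ, ((d : ℤ) + i * l).toNat = d + i * l := by
    intro i
    have : ((d : ℤ) + i * l) = ((d + i * l : ℕ) : ℤ) := by push_cast; ring
    rw [this, Int.toNat_natCast]
  constructor
  · intro hf i
    have := hf i
    rwa [h] at this
  · intro hf i
    rw [h]
    exact hf i

include hF in
/-- The quotient action raises the weights by the multiples of `p * l`. -/
lemma raise' (hraise : ∀ d : ℕ, ∀ a ∈ F d, W F l d (Φ a)) (d : ℕ) (b : Quo Φ p c)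
    (hb : b ∈ restr F (Quo Φ p c) d) :
    W (restr F (Quo Φ p c)) (p * l) d (Phi' hp hΦ c b) := by
  have h1 := hraise d b hb
  rw [Phi'_eq hp hΦ c b] at h1
  have h2 := W_digits hF hp _ (d : ℤ) _ _ le_rfl h1
  intro i
  rw [mem_restr]
  have h3 := h2 i
  rw [coeff_map] at h3
  have h4 : (d : ℤ) + i * ((p : ℤ) * l) = (d : ℤ) + i * ((p * l : ℕ) : ℤ) := by push_cast; ring
  rwa [h4] at h3

variable (hraise : ∀ d : ℕ, ∀ a ∈ F d, W F l d (Φ a)) (hl : 0 < l)

include hF hraise hl in
lemma nm_coeff (d : ℕ) (f : A) (hf : f ∈ F d) (i : ℕ) :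
    (((Phi' hp hΦ c (nm hp hΦ c f)).coeff i : Quo Φ p c) : A) - (Φ f).coeff i ^ p ∈
      F (p * d + 1 + i * (p * l)) := by
  have _ : CharP A p := charA k A p
  have h1 := pn_digits_mem hF hp hl (algebraMap k A c) d (Φ f) (hraise d f hf)
    ((Phi' hp hΦ c (nm hp hΦ c f)).map (algebraMap (Quo Φ p c) A)) (by
      rw [← Phi'_eq, ← Phi_nm hΦ]
      rfl) i
  rw [coeff_map] at h1
  exact h1

include hF hraise hl in
lemma nm_zero (d : ℕ) (f : A) (hf : f ∈ F d) :
    ((nm hp hΦ c f : Quo Φ p c) : A) - f ^ p ∈ F (p * d + 1) := by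
  have h1 := nm_coeff hΦ hp c hF hraise hl d f hf 0
  rw [coeff_zero' (Phi'_co hp hΦ c), coeff_zero' hΦ, Nat.zero_mul, Nat.add_zero] at h1
  exact h1

include hF hraise hl in
lemma nm_one (d : ℕ) (f : A) (hf : f ∈ F d) :
    ((D1 (Phi'_co hp hΦ c) (nm hp hΦ c f) : Quo Φ p c) : A) - D1 hΦ f ^ p ∈
      F (p * (d + l) + 1) := by
  have h1 := nm_coeff hΦ hp c hF hraise hl d f hf 1
  have h2 : p * d + 1 + 1 * (p * l) = p * (d + l) + 1 := by ring
  rw [h2] at h1
  exact h1

end act

end Pool.Agent.W559.Ga
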