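import Pool.Agent.W559.Ga.Co

set_option autoImplicit false
set_option linter.unusedSectionVars false

open Polynomial

universe u v

namespace Pool.Agent.W559.Ga

section lam

variable {A : Type u} [CommRing A]

/-- The additive polynomial with the zeros `j * c`. -/
noncomputable def Lam (p : ℕ) (c : A) : A[X] := X ^ p - C (c ^ (p - 1)) * X

lemma Lam_zero {p : ℕ} (hp : p.Prime) : Lam p (0 : A) = X ^ p := by
  have : p - 1 ≠ 0 := by have := hp.one_lt; omega
  rw [Lam, zero_pow this, C_0, zero_mul, sub_zero]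

lemma map_Lam {A' : Type v} [CommRing A'] (f : A →+* A') (p : ℕ) (c : A) :
    (Lam p c).map f = Lam p (f c) := by
  simp [Lam]

lemma Lam_degree {p : ℕ} (hp : p.Prime) [Nontrivial A] (c : A) : (Lam p c).natDegree = p := by
  have h1 : (C (c ^ (p - 1)) * X : A[X]).degree < ((X : A[X]) ^ p).degree := by
    rw [degree_X_pow]
    refine lt_of_le_of_lt (degree_C_mul_X_le _) ?_
    exact_mod_cast hp.one_lt
  refine natDegree_eq_of_degree_eq_some ?_
  rw [Lam, degree_sub_eq_left_of_degree_lt h1, degree_X_pow]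

lemma Lam_monic {p : ℕ} (hp : p.Prime) [Nontrivial A] (c : A) : (Lam p c).Monic := by
  refine (monic_X_pow p).sub_of_left ?_
  rw [degree_X_pow]
  refine lt_of_le_of_lt (degree_C_mul_X_le _) ?_
  exact_mod_cast hp.one_lt

lemma Lam_add {p : ℕ} (hp : p.Prime) [CharP A p] (c : A) (r : A[X]) :
    (Lam p c).comp (X + r) = Lam p c + (Lam p c).comp r := by
  have _ : Fact p.Prime := ⟨hp⟩
  simp only [Lam, sub_comp, pow_comp, X_comp, mul_comp, C_comp]
  rw [add_pow_char]
  ring

lemma Lam_eval_zero {p : ℕ} (hp : p.Prime) (c : A) : (Lam p c).eval 0 = 0 := by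
  simp [Lam, zero_pow hp.ne_zero]

lemma Lam_eval_self {p : ℕ} (hp : p.Prime) (c : A) : (Lam p c).eval c = 0 := by
  have : p - 1 + 1 = p := by have := hp.pos; omega
  rw [Lam, eval_sub, eval_pow, eval_mul, eval_C, eval_X, ← pow_succ, this, sub_self]

lemma comp_inj [NoZeroDivisors A] {L : A[X]} (hL : 0 < L.natDegree) {P Q : A[X]}
    (h : P.comp L = Q.comp L) : P = Q := by
  have h1 : (P - Q).comp L = 0 := by rw [sub_comp, h, sub_self]
  rcases comp_eq_zero_iff.1 h1 with h2 | ⟨-, h2⟩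
  · exact sub_eq_zero.1 h2
  · rw [h2, natDegree_C] at hL
    omega

lemma hasse_map {A' : Type v} [CommRing A'] (f : A →+* A') (i : ℕ) (P : A[X]) :
    hasseDeriv i (P.map f) = (hasseDeriv i P).map f := by
  ext j
  rw [hasseDeriv_coeff, coeff_map, coeff_map, hasseDeriv_coeff, map_mul, map_natCast]

end lam

lemma charA (k A : Type u) [Field k] [CommRing A] [Nontrivial A] [Algebra k A] (p : ℕ)
    [CharP k p] : CharP A p :=
  charP_of_injective_algebraMap (FaithfulSMul.algebraMap_injective k A) p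

section quo

variable {k A : Type u} [Field k] [CommRing A] [IsDomain A] [Algebra k A] {Φ : A →ₐ[k] A[X]}

/-- The two-variable form of the associativity. -/
lemma Co.two (hΦ : Co Φ) (b : A) :
    (Φ b).map (Φ : A →+* A[X]) = ((Φ b).map C).comp (X + C X) := by
  ext1 i
  rw [coeff_map, ← taylor_apply, taylor_coeff, hasse_map, eval_map]
  change Φ ((Φ b).coeff i) = _
  rw [hΦ.assoc, eval₂_C_X]

/-- Composition with the additive polynomial. -/
noncomputable def J (p : ℕ) (c : k) : A[X] →ₐ[k] A[X] :=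
  (Polynomial.aeval (Lam p (algebraMap k A c)) : A[X] →ₐ[A] A[X]).restrictScalars k

lemma J_apply (p : ℕ) (c : k) (Q : A[X]) : J p c Q = Q.comp (Lam p (algebraMap k A c)) := rfl

/-- The quotient by the subgroup of order `p`. -/
noncomputable def Quo (Φ : A →ₐ[k] A[X]) (p : ℕ) (c : k) : Subalgebra k A :=
  (J p c : A[X] →ₐ[k] A[X]).range.comap Φ

lemma mem_Quo {p : ℕ} {c : k} {b : A} :
    b ∈ Quo Φ p c ↔ ∃ Q : A[X], Φ b = Q.comp (Lam p (algebraMap k A c)) := by
  constructor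
  · rintro ⟨Q, hQ⟩
    exact ⟨Q, hQ.symm⟩
  · rintro ⟨Q, hQ⟩
    exact ⟨Q, hQ.symm⟩

variable {p : ℕ} (hp : p.Prime) [CharP k p]


include hp in
/-- The coefficients. -/
lemma Phi_coeff (hΦ : Co Φ) {c : k} {b : A} {Q : A[X]}
    (hQ : Φ b = Q.comp (Lam p (algebraMap k A c))) (i : ℕ) :
    Φ (Q.coeff i) = (hasseDeriv i Q).comp (Lam p (algebraMap k A c)) := by
  have _ : CharP A p := charA k A p
  have _ : CharP A[X] p := inferInstance
  set L := Lam p (algebraMap k A c) with hL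
  have h1 := hΦ.two b
  rw [hQ, Polynomial.map_comp, Polynomial.map_comp, comp_assoc] at h1
  have h2 : L.map (Φ : A →+* A[X]) = Lam p (C (algebraMap k A c)) := by
    rw [hL, map_Lam]
    congr 1
    exact Φ.commutes c
  have h3 : L.map (C : A →+* A[X]) = Lam p (C (algebraMap k A c)) := by rw [hL, map_Lam]
  have h4 : (Lam p (C (algebraMap k A c)) : A[X][X]).comp (C X) = C L := by
    rw [hL, Lam, Lam, sub_comp, pow_comp, X_comp, mul_comp, C_comp, X_comp, ← C_pow, ← C_mul,
      ← C_sub, ← C_pow]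
  rw [h2, h3, Lam_add hp, h4] at h1
  have h5 : ((Q.map C).comp (Lam p (C (algebraMap k A c)) + C L) : A[X][X]) =
      ((Q.map C).comp (X + C L)).comp (Lam p (C (algebraMap k A c))) := by
    rw [comp_assoc, add_comp, X_comp, C_comp]
  rw [h5] at h1
  have h6 := comp_inj (by rw [Lam_degree hp]; exact hp.pos) h1
  have h7 := congrArg (fun f => coeff f i) h6
  simp only [coeff_map] at h7
  rw [← taylor_apply, taylor_coeff, hasse_map, eval_map] at h7
  exact h7

include hp in
lemma coeff_mem (hΦ : Co Φ) {c : k} {b : A} {Q : A[X]}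
    (hQ : Φ b = Q.comp (Lam p (algebraMap k A c))) (i : ℕ) : Q.coeff i ∈ Quo Φ p c :=
  mem_Quo.2 ⟨_, Phi_coeff hp hΦ hQ i⟩

/-- Composition with the additive polynomial, on the polynomials over the quotient. -/
noncomputable def J' (Φ : A →ₐ[k] A[X]) (p : ℕ) (c : k) : (Quo Φ p c)[X] →ₐ[k] A[X] :=
  (J p c).comp (Polynomial.mapAlgHom (Quo Φ p c).val)

lemma J'_apply (c : k) (Q : (Quo Φ p c)[X]) :
    J' Φ p c Q = (Q.map (algebraMap (Quo Φ p c) A)).comp (Lam p (algebraMap k A c)) := rfl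

include hp in
lemma J'_inj (c : k) : Function.Injective (J' Φ p c) := by
  intro P Q h
  rw [J'_apply, J'_apply] at h
  have h1 := comp_inj (by rw [Lam_degree hp]; exact hp.pos) h
  exact Polynomial.map_injective _ Subtype.val_injective h1

include hp in
lemma exists_J' (hΦ : Co Φ) {c : k} {b : A} (hb : b ∈ Quo Φ p c) :
    ∃ Q : (Quo Φ p c)[X], J' Φ p c Q = Φ b := by
  obtain ⟨Q, hQ⟩ := mem_Quo.1 hb
  have h1 : Q ∈ lifts (algebraMap (Quo Φ p c) A) := by
    rw [lifts_iff_coeff_lifts]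
    exact fun i => ⟨⟨Q.coeff i, coeff_mem hp hΦ hQ i⟩, rfl⟩
  obtain ⟨Q', hQ'⟩ := (mem_lifts _).1 h1
  exact ⟨Q', by rw [J'_apply, hQ, hQ']⟩

/-- The action of the additive group on the quotient. -/
noncomputable def Phi' (hp : p.Prime) (hΦ : Co Φ) (c : k) :
    Quo Φ p c →ₐ[k] (Quo Φ p c)[X] :=
  ((AlgEquiv.ofInjective (J' Φ p c) (J'_inj hp c)).symm :
    (J' Φ p c).range →ₐ[k] (Quo Φ p c)[X]).comp
    ((Φ.comp (Quo Φ p c).val).codRestrict (J' Φ p c).range fun b => exists_J' hp hΦ b.2)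

lemma J'_Phi' (hΦ : Co Φ) (c : k) (b : Quo Φ p c) : J' Φ p c (Phi' hp hΦ c b) = Φ b := by
  have h1 := (AlgEquiv.ofInjective (J' Φ p c) (J'_inj hp c)).apply_symm_apply
    ((Φ.comp (Quo Φ p c).val).codRestrict (J' Φ p c).range (fun b => exists_J' hp hΦ b.2) b)
  exact congrArg Subtype.val h1

lemma Phi'_eq (hΦ : Co Φ) (c : k) (b : Quo Φ p c) :
    Φ b = ((Phi' hp hΦ c b).map (algebraMap (Quo Φ p c) A)).comp
      (Lam p (algebraMap k A c)) := (J'_Phi' hp hΦ c b).symm

lemma Phi'_unique (hΦ : Co Φ) (c : k) (b : Quo Φ p c) (Q : (Quo Φ p c)[X])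
    (h : Φ b = (Q.map (algebraMap (Quo Φ p c) A)).comp (Lam p (algebraMap k A c))) :
    Phi' hp hΦ c b = Q := by
  apply J'_inj hp c
  rw [J'_Phi', h]
  rfl

/-- The quotient action is an action. -/
theorem Phi'_co (hΦ : Co Φ) (c : k) : Co (Phi' hp hΦ c) := by
  constructor
  · intro b
    apply Subtype.ext
    have h1 := congrArg (fun f => eval (0 : A) f) (Phi'_eq hp hΦ c b)
    simp only [eval_comp, Lam_eval_zero hp, hΦ.zero] at h1
    rw [h1, ← map_zero (algebraMap (Quo Φ p c) A), eval_map, eval₂_hom]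
    rfl
  · intro b i
    apply Phi'_unique hp hΦ c
    have h1 := Phi_coeff hp hΦ (Phi'_eq hp hΦ c b) i
    rw [hasse_map, coeff_map] at h1
    exact h1

/-- The relation between the automorphisms. -/
lemma ev_Phi' (hΦ : Co Φ) (c a : k) (b : Quo Φ p c) :
    ((ev (Phi' hp hΦ c) (a ^ p - c ^ (p - 1) * a) b : Quo Φ p c) : A) = ev Φ a b := by
  rw [ev_apply, ev_apply, Phi'_eq hp hΦ c b, eval_comp]
  have h1 : (Lam p (algebraMap k A c)).eval (algebraMap k A a) =
      algebraMap (Quo Φ p c) A (algebraMap k (Quo Φ p c) (a ^ p - c ^ (p - 1) * a)) := by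
    rw [← IsScalarTower.algebraMap_apply, Lam]
    simp
  rw [h1, eval_map, eval₂_hom]
  rfl

end quo

end Pool.Agent.W559.Ga
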