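import Pool.Agent.W559.Ga.Gal

set_option autoImplicit false
set_option linter.unusedSectionVars false

open Polynomial Pool.Agent.H519R3.RS Pool.Agent.H519R3.RE

universe u v

namespace Pool.Agent.W559.Ga

section step

variable {k A : Type u} [Field k] [CommRing A] [IsDomain A] [Algebra k A] {Φ : A →ₐ[k] A[X]}
  {p : ℕ} (hp : p.Prime) [CharP k p] {F : ℕ → Ideal A} {l : ℕ}

include hp in
/-- The step for the constant subgroup of order `p`. -/
theorem good_c (h : Dat Φ F l) (hG : Good k h.filt) {c : k} (hc : c ≠ 0) (hf : Free Φ F c) :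
    Good k (isFilt_restr h.filt (Quo Φ p c)) := by
  refine good_fix hp (CharP.cast_eq_zero k p) (evE h.co c) (evE_p h.co (CharP.cast_eq_zero k p) c)
    h.filt hG h.pos (fun d a ha => h.diff d a ha c) hf (fun d hd a ha => ?_)
    (Quo Φ p c).val Subtype.val_injective (fun b => ?_) _ fun d c' => Iff.rfl
  · obtain ⟨N, hN⟩ := h.lead d hd a ha
    exact ⟨N, h.lead_le hc _ hN⟩
  · change ev Φ c b = b ↔ _
    rw [← mem_Quo_iff h.co hp c hc]
    constructor
    · intro hb
      exact ⟨⟨b, hb⟩, rfl⟩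
    · rintro ⟨⟨b', hb'⟩, rfl⟩
      exact hb'

include hp in
/-- The step for the infinitesimal subgroup of order `p`. -/
theorem good_0 (h : Dat Φ F l) (hG : Good k h.filt) (hf : Free0 Φ F) :
    Good k (isFilt_restr h.filt (Quo Φ p (0 : k))) := by
  refine good_ker hp (CharP.cast_eq_zero k p) (D1 h.co) 0 (fun b => ?_)
    h.filt hG (fun d a ha => h.one d a ha) hf h.lead
    (Quo Φ p (0 : k)).val Subtype.val_injective (fun b => ?_) _ fun d c' => Iff.rfl
  · rw [D1_p h.co hp (CharP.cast_eq_zero k p), map_zero, zero_mul]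
  · rw [← mem_Quo_zero h.co hp]
    constructor
    · intro hb
      exact ⟨⟨b, hb⟩, rfl⟩
    · rintro ⟨⟨b', hb'⟩, rfl⟩
      exact hb'

include hp in
lemma ne_bot_Quo (h : Dat Φ F l) (c : k) (hne : F 1 ≠ ⊥) :
    restr F (Quo Φ p c) 1 ≠ ⊥ := by
  obtain ⟨a, ha, ha0⟩ := Submodule.exists_mem_ne_zero_of_ne_bot hne
  intro hbot
  have h1 : nm hp h.co c a ∈ restr F (Quo Φ p c) 1 := by
    rw [mem_restr]
    have h2 := nm_zero h.co hp c h.filt h.raise h.pos 1 a ha
    have h3 := Ideal.add_mem _ (h.filt.anti 1 _ (by omega) h2)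
      ((F 1).pow_mem_of_mem ha p hp.pos)
    rwa [sub_add_cancel] at h3
  rw [hbot, Ideal.mem_bot] at h1
  have h2 : ∏ j ∈ Finset.range p, ev Φ ((j : k) * c) a = 0 := congrArg Subtype.val h1
  obtain ⟨j, -, hj⟩ := Finset.prod_eq_zero_iff.1 h2
  exact ha0 ((map_eq_zero_iff _ (evE h.co ((j : k) * c)).injective).1 hj)

end step

section inv

variable {k A : Type u} [Field k] [CommRing A] [Algebra k A]

/-- The invariants of a subgroup scheme. -/
noncomputable def inv (p : ℕ) (Φ : A →ₐ[k] A[X]) (Γ : AddSubgroup k) (r : ℕ) :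
    Subalgebra k A where
  carrier := {b | (∀ a ∈ Γ, ev Φ a b = b) ∧ (X : A[X]) ^ p ^ r ∣ Φ b - C b}
  mul_mem' := by
    rintro a b ⟨ha, ha'⟩ ⟨hb, hb'⟩
    refine ⟨fun c hc => by rw [map_mul, ha c hc, hb c hc], ?_⟩
    have h1 : Φ (a * b) - C (a * b) = Φ a * (Φ b - C b) + C b * (Φ a - C a) := by
      rw [map_mul, C_mul]; ring
    rw [h1]
    exact dvd_add (Dvd.dvd.mul_left hb' _) (Dvd.dvd.mul_left ha' _)
  add_mem' := by
    rintro a b ⟨ha, ha'⟩ ⟨hb, hb'⟩
    refine ⟨fun c hc => by rw [map_add, ha c hc, hb c hc], ?_⟩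
    have h1 : Φ (a + b) - C (a + b) = (Φ a - C a) + (Φ b - C b) := by
      rw [map_add, C_add]; ring
    rw [h1]
    exact dvd_add ha' hb'
  algebraMap_mem' := by
    intro a
    refine ⟨fun c _ => (ev Φ c).commutes a, ?_⟩
    rw [Φ.commutes]
    change _ ∣ C (algebraMap k A a) - C (algebraMap k A a)
    rw [sub_self]
    exact dvd_zero _

lemma mem_inv {p : ℕ} {Φ : A →ₐ[k] A[X]} {Γ : AddSubgroup k} {r : ℕ} {b : A} :
    b ∈ inv p Φ Γ r ↔ (∀ a ∈ Γ, ev Φ a b = b) ∧ (X : A[X]) ^ p ^ r ∣ Φ b - C b := Iff.rfl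

lemma X_dvd {Φ : A →ₐ[k] A[X]} (hΦ : Co Φ) (b : A) : (X : A[X]) ∣ Φ b - C b := by
  rw [X_dvd_iff, coeff_sub, coeff_zero' hΦ, coeff_C_zero, sub_self]

/-- Goodness of the induced filtration on a subalgebra. -/
def GN (F : ℕ → Ideal A) (B : Subalgebra k A) : Prop :=
  ∃ h : IsFilt (restr F B), Good k h ∧ restr F B 1 ≠ ⊥

/-- Transport to a subalgebra of a subalgebra. -/
lemma GN_trans [IsDomain A] {F : ℕ → Ideal A} (A' : Subalgebra k A) (B' : Subalgebra k A')
    (B : Subalgebra k A) (h : ∀ b : A, b ∈ B ↔ ∃ h' : b ∈ A', (⟨b, h'⟩ : A') ∈ B')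
    (hG : GN (restr F A') B') (hF : IsFilt F) : GN F B := by
  obtain ⟨hf, hg, hne⟩ := hG
  let j : B →ₐ[k] B' :=
    { toFun := fun b => ⟨⟨b, ((h b).1 b.2).1⟩, ((h b).1 b.2).2⟩
      map_one' := rfl
      map_mul' := fun _ _ => rfl
      map_zero' := rfl
      map_add' := fun _ _ => rfl
      commutes' := fun _ => rfl }
  refine ⟨isFilt_restr hF B, good_congr hf hg j ?_ ?_ _ fun d c' => Iff.rfl, ?_⟩
  · intro x y hxy
    have h1 : ((j x : A') : A) = ((j y : A') : A) := by rw [hxy]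
    exact Subtype.ext h1
  · rintro ⟨⟨b, hb⟩, hb'⟩
    exact ⟨⟨b, (h b).2 ⟨hb, hb'⟩⟩, rfl⟩
  · obtain ⟨a, ha, ha0⟩ := Submodule.exists_mem_ne_zero_of_ne_bot hne
    intro hbot
    have h1 : (⟨((a : A') : A), (h _).2 ⟨(a : A').2, a.2⟩⟩ : B) ∈ restr F B 1 := ha
    rw [hbot, Ideal.mem_bot] at h1
    have h2 : ((a : A') : A) = 0 := congrArg Subtype.val h1
    exact ha0 (Subtype.ext (Subtype.ext h2))

lemma GN_top [IsDomain A] {F : ℕ → Ideal A} (hF : IsFilt F) (hG : Good k hF) (hne : F 1 ≠ ⊥)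
    (B : Subalgebra k A) (hB : B = ⊤) : GN F B := by
  obtain ⟨h1, h2⟩ := good_top hF hG hne hB
  exact ⟨_, h1, h2⟩

end inv

section tower

variable {k : Type u} [Field k] {p : ℕ} (hp : p.Prime) [CharP k p]

/-- The additive map with the kernel generated by `c`. -/
noncomputable def lam (hp : p.Prime) (c : k) : k →+ k where
  toFun a := a ^ p - c ^ (p - 1) * a
  map_zero' := by rw [zero_pow hp.ne_zero, mul_zero, sub_zero]
  map_add' a b := by
    have _ : Fact p.Prime := ⟨hp⟩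
    rw [add_pow_char]
    ring

omit [CharP k p] in
lemma self_sub (hp : p.Prime) (c : k) : c ^ p - c ^ (p - 1) * c = 0 := by
  have : p - 1 + 1 = p := by have := hp.pos; omega
  rw [← pow_succ, this, sub_self]

include hp in
/-- **The quotients by the finite constant subgroups.** -/
theorem tower_const (n : ℕ) : ∀ {A : Type u} [CommRing A] [IsDomain A] [Algebra k A]
    (Φ : A →ₐ[k] A[X]) (F : ℕ → Ideal A) (l : ℕ) (h : Dat Φ F l) (_ : Good k h.filt)
    (_ : F 1 ≠ ⊥) (Γ : AddSubgroup k) [Finite Γ] (_ : Nat.card Γ ≤ n)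
    (_ : ∀ a ∈ Γ, a ≠ 0 → Free Φ F a), GN F (inv p Φ Γ 0) := by
  induction n with
  | zero =>
    intro A _ _ _ Φ F l h hG hne Γ _ hn _
    have : 0 < Nat.card Γ := Nat.card_pos
    omega
  | succ n ih =>
    intro A _ _ _ Φ F l h hG hne Γ _ hn hfree
    by_cases hΓ : ∃ c ∈ Γ, c ≠ 0
    · obtain ⟨c, hcΓ, hc⟩ := hΓ
      let Γ' : AddSubgroup k := Γ.map (lam hp c)
      have hfin : Finite Γ' := by
        have h1 : ((Γ' : Set k)) = (lam hp c) '' (Γ : Set k) := AddSubgroup.coe_map _ _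
        have h2 : ((Γ : Set k)).Finite := Set.toFinite _
        have h3 : ((Γ' : Set k)).Finite := by rw [h1]; exact h2.image _
        exact h3
      have hcard : Nat.card Γ' < Nat.card Γ := by
        have h1 : Function.Surjective (fun a : Γ => (⟨lam hp c a, ⟨a, a.2, rfl⟩⟩ : Γ')) := by
          rintro ⟨_, a, ha, rfl⟩
          exact ⟨⟨a, ha⟩, rfl⟩
        have h2 := Nat.card_le_card_of_surjective _ h1
        refine lt_of_le_of_ne h2 fun heq => ?_
        have h3 : Function.Bijective (fun a : Γ => (⟨lam hp c a, ⟨a, a.2, rfl⟩⟩ : Γ')) := by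
          rw [Nat.bijective_iff_surjective_and_card]
          exact ⟨h1, heq.symm⟩
        have h4 : (⟨c, hcΓ⟩ : Γ) = 0 := by
          apply h3.1
          apply Subtype.ext
          change c ^ p - c ^ (p - 1) * c = (0 : k) ^ p - c ^ (p - 1) * 0
          rw [self_sub hp, zero_pow hp.ne_zero, mul_zero, sub_zero]
        exact hc (congrArg Subtype.val h4)
      have h' := Dat.quo hp c h
      have hG' := good_c hp h hG hc (hfree c hcΓ hc)
      have hne' := ne_bot_Quo hp h c hne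
      have hres := ih (Phi' hp h.co c) (restr F (Quo Φ p c)) (p * l) h' hG' hne' Γ'
        (by omega) (by
          rintro _ ⟨a, ha, rfl⟩ ha0
          refine free_quo hp c h.co hc a (fun j hj => hfree _ ?_ hj) ha0
          rw [← nsmul_eq_mul]
          exact Γ.sub_mem ha (Γ.nsmul_mem hcΓ j))
      refine GN_trans (Quo Φ p c) _ _ (fun b => ?_) hres h.filt
      rw [mem_inv]
      constructor
      · rintro ⟨hb, -⟩
        have hbQ : b ∈ Quo Φ p c := (mem_Quo_iff h.co hp c hc).2 (hb c hcΓ)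
        refine ⟨hbQ, ?_, ?_⟩
        · rintro _ ⟨a, ha, rfl⟩
          apply Subtype.ext
          change ((ev (Phi' hp h.co c) (a ^ p - c ^ (p - 1) * a) ⟨b, hbQ⟩ : Quo Φ p c) : A) = b
          rw [ev_Phi' hp h.co c a ⟨b, hbQ⟩]
          exact hb a ha
        · rw [pow_zero, pow_one]
          exact X_dvd (Phi'_co hp h.co c) _
      · rintro ⟨hbQ, hb, -⟩
        refine ⟨fun a ha => ?_, ?_⟩
        · have h1 := hb (lam hp c a) ⟨a, ha, rfl⟩
          have h2 := congrArg Subtype.val h1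
          change ((ev (Phi' hp h.co c) (a ^ p - c ^ (p - 1) * a) ⟨b, hbQ⟩ : Quo Φ p c) : A) = b
            at h2
          rwa [ev_Phi' hp h.co c a ⟨b, hbQ⟩] at h2
        · rw [pow_zero, pow_one]
          exact X_dvd h.co _
    · push Not at hΓ
      refine GN_top h.filt hG hne _ (top_unique fun b _ => ?_)
      refine ⟨fun a ha => by rw [hΓ a ha, ev_zero h.co], ?_⟩
      rw [pow_zero, pow_one]
      exact X_dvd h.co _

include hp in
/-- **The quotients by the finite subgroup schemes.** -/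
theorem tower_full (r : ℕ) : ∀ {A : Type u} [CommRing A] [IsDomain A] [Algebra k A]
    (Φ : A →ₐ[k] A[X]) (F : ℕ → Ideal A) (l : ℕ) (h : Dat Φ F l) (_ : Good k h.filt)
    (_ : F 1 ≠ ⊥) (Γ : AddSubgroup k) [Finite Γ]
    (_ : ∀ a ∈ Γ, a ≠ 0 → Free Φ F a) (_ : Free0 Φ F), GN F (inv p Φ Γ r) := by
  induction r with
  | zero =>
    intro A _ _ _ Φ F l h hG hne Γ _ hfree _
    exact tower_const hp _ Φ F l h hG hne Γ le_rfl hfree
  | succ r ih =>
    intro A _ _ _ Φ F l h hG hne Γ _ hfree hfree0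
    have _ : CharP A p := charA k A p
    have hp1 : p - 1 ≠ 0 := by have := hp.one_lt; omega
    let Γ' : AddSubgroup k := Γ.map (lam hp 0)
    have hlam : ∀ a : k, lam hp 0 a = a ^ p := by
      intro a
      change a ^ p - 0 ^ (p - 1) * a = _
      rw [zero_pow hp1, zero_mul, sub_zero]
    have hfin : Finite Γ' := by
      have h1 : ((Γ' : Set k)) = (lam hp 0) '' (Γ : Set k) := AddSubgroup.coe_map _ _
      have h2 : ((Γ : Set k)).Finite := Set.toFinite _
      have h3 : ((Γ' : Set k)).Finite := by rw [h1]; exact h2.image _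
      exact h3
    have hev : ∀ (a : k) (b : A) (hb : b ∈ Quo Φ p (0 : k)),
        ((ev (Phi' hp h.co 0) (a ^ p) ⟨b, hb⟩ : Quo Φ p (0 : k)) : A) = ev Φ a b := by
      intro a b hb
      have h1 := ev_Phi' hp h.co (0 : k) a ⟨b, hb⟩
      rwa [zero_pow hp1, zero_mul, sub_zero] at h1
    have hres := ih (Phi' hp h.co 0) (restr F (Quo Φ p (0 : k))) (p * l) (Dat.quo hp 0 h)
      (good_0 hp h hG hfree0) (ne_bot_Quo hp h 0 hne) Γ' (by
        rintro _ ⟨a, ha, rfl⟩ ha0
        rw [hlam] at ha0 ⊢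
        exact free_quo0 hp h.co a (hfree a ha (by
          intro h0
          rw [h0, zero_pow hp.ne_zero] at ha0
          exact ha0 rfl))) (free0_quo0 hp h.co hfree0)
    have hdiv : ∀ (b : A) (hb : b ∈ Quo Φ p (0 : k)), (X : A[X]) ^ p ^ (r + 1) ∣ Φ b - C b ↔
        (X : (Quo Φ p (0 : k))[X]) ^ p ^ r ∣ Phi' hp h.co 0 ⟨b, hb⟩ - C (⟨b, hb⟩ : Quo Φ p (0 : k)) := by
      intro b hb
      have h1 : Φ b - C b = expand A p ((Phi' hp h.co 0 ⟨b, hb⟩ - C (⟨b, hb⟩ : Quo Φ p (0 : k))).map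
          (algebraMap (Quo Φ p (0 : k)) A)) := by
        have h2 := Phi'_eq hp h.co (0 : k) ⟨b, hb⟩
        rw [map_zero, Lam_zero hp] at h2
        change Φ b = _ at h2
        rw [h2, Polynomial.map_sub, map_C, expand_eq_comp_X_pow, sub_comp, C_comp]
        rfl
      rw [h1, X_pow_dvd_iff, X_pow_dvd_iff]
      constructor
      · intro h2 d hd
        have h3 := h2 (d * p) (by rw [pow_succ]; exact Nat.mul_lt_mul_of_pos_right hd hp.pos)
        rw [coeff_expand_mul hp.pos, coeff_map] at h3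
        exact (map_eq_zero_iff _ Subtype.val_injective).1 h3
      · intro h2 d hd
        rw [coeff_expand hp.pos]
        split_ifs with hdp
        · rw [coeff_map, h2, map_zero]
          rw [pow_succ] at hd
          exact Nat.div_lt_of_lt_mul (by rwa [mul_comm] at hd)
        · rfl
    refine GN_trans (Quo Φ p (0 : k)) _ _ (fun b => ?_) hres h.filt
    rw [mem_inv]
    constructor
    · rintro ⟨hb, hb'⟩
      have hbQ : b ∈ Quo Φ p (0 : k) := by
        rw [mem_Quo_zero h.co hp, D1_apply]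
        have h1 := (X_pow_dvd_iff.1 hb') 1 (by
          calc 1 < p := hp.one_lt
            _ = p ^ 1 := (pow_one p).symm
            _ ≤ p ^ (r + 1) := Nat.pow_le_pow_right hp.pos (by omega))
        rwa [coeff_sub, coeff_C, if_neg one_ne_zero, sub_zero] at h1
      refine ⟨hbQ, ?_, (hdiv b hbQ).1 hb'⟩
      rintro _ ⟨a, ha, rfl⟩
      apply Subtype.ext
      rw [hlam, hev a b hbQ]
      exact hb a ha
    · rintro ⟨hbQ, hb, hb'⟩
      refine ⟨fun a ha => ?_, (hdiv b hbQ).2 hb'⟩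
      have h1 := hb (lam hp 0 a) ⟨a, ha, rfl⟩
      have h2 := congrArg Subtype.val h1
      rw [hlam, hev a b hbQ] at h2
      exact h2

end tower

end Pool.Agent.W559.Ga
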