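import Pool.Agent.W559.Ga.Quo
import Pool.Agent.H519R3.RS.Centre

set_option autoImplicit false
set_option linter.unusedSectionVars false

open Polynomial Pool.Agent.H519R3.RS

universe u v

namespace Pool.Agent.W559.Ga

section wt

variable {A : Type u} [CommRing A] {F : ℕ → Ideal A}

/-- The polynomials of weight at least `d`, if the variable has the weight `-l`. -/
def W (F : ℕ → Ideal A) (l : ℕ) (d : ℤ) (f : A[X]) : Prop :=
  ∀ i : ℕ, f.coeff i ∈ F (d + i * l).toNat

variable (hF : IsFilt F) {l : ℕ}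

include hF

lemma F_nonpos {d : ℤ} (hd : d ≤ 0) (a : A) : a ∈ F d.toNat := by
  have : d.toNat = 0 := by omega
  rw [this, hF.zero]
  trivial

lemma F_anti {d e : ℤ} (h : d ≤ e) {a : A} (ha : a ∈ F e.toNat) : a ∈ F d.toNat :=
  hF.anti _ _ (by omega) ha

lemma F_mul {d e : ℤ} {a b : A} (ha : a ∈ F d.toNat) (hb : b ∈ F e.toNat) :
    a * b ∈ F (d + e).toNat :=
  hF.anti _ _ (by omega) (hF.mul _ _ (Ideal.mul_mem_mul ha hb))

lemma F_pow {d : ℤ} {a : A} (ha : a ∈ F d.toNat) (n : ℕ) : a ^ n ∈ F (n * d).toNat := by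
  induction n with
  | zero => rw [Nat.cast_zero, zero_mul]; exact F_nonpos hF le_rfl _
  | succ n ih =>
    rw [pow_succ]
    have h1 := F_mul hF ih ha
    have h2 : (n : ℤ) * d + d = ((n + 1 : ℕ) : ℤ) * d := by push_cast; ring
    rwa [h2] at h1

omit hF in
lemma W_zero (d : ℤ) : W F l d 0 := fun i => by rw [coeff_zero]; exact Ideal.zero_mem _

omit hF in
lemma W_add {d : ℤ} {f g : A[X]} (hf : W F l d f) (hg : W F l d g) : W F l d (f + g) :=
  fun i => by rw [coeff_add]; exact Ideal.add_mem _ (hf i) (hg i)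

omit hF in
lemma W_sub {d : ℤ} {f g : A[X]} (hf : W F l d f) (hg : W F l d g) : W F l d (f - g) :=
  fun i => by rw [coeff_sub]; exact Ideal.sub_mem _ (hf i) (hg i)

omit hF in
lemma W_sum {ι : Type v} {d : ℤ} (s : Finset ι) (f : ι → A[X]) (hf : ∀ i ∈ s, W F l d (f i)) :
    W F l d (∑ i ∈ s, f i) := fun i => by
  rw [finsetSum_coeff]
  exact Ideal.sum_mem _ fun j hj => hf j hj i

lemma W_anti {d e : ℤ} (h : d ≤ e) {f : A[X]} (hf : W F l e f) : W F l d f :=
  fun i => F_anti hF (by omega) (hf i)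

lemma W_mul {d e : ℤ} {f g : A[X]} (hf : W F l d f) (hg : W F l e g) :
    W F l (d + e) (f * g) := by
  intro i
  rw [coeff_mul]
  refine Ideal.sum_mem _ fun x hx => ?_
  have h1 := F_mul hF (hf x.1) (hg x.2)
  have h2 : d + (x.1 : ℤ) * l + (e + x.2 * l) = d + e + i * l := by
    rw [← Finset.HasAntidiagonal.mem_antidiagonal.1 hx]
    push_cast
    ring
  rwa [h2] at h1

omit hF in
lemma W_C {d : ℤ} {a : A} (ha : a ∈ F d.toNat) : W F l d (C a) := by
  intro i
  rw [coeff_C]
  split_ifs with h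
  · subst h
    rw [Nat.cast_zero, zero_mul, add_zero]
    exact ha
  · exact Ideal.zero_mem _

lemma W_one : W F l 0 (1 : A[X]) := by
  rw [← C_1]
  exact W_C (F_nonpos hF le_rfl _)

lemma W_X : W F l (-l) (X : A[X]) := by
  intro i
  rw [coeff_X]
  split_ifs with h
  · subst h
    exact F_nonpos hF (by push_cast; omega) _
  · exact Ideal.zero_mem _

lemma W_pow {d : ℤ} {f : A[X]} (hf : W F l d f) (n : ℕ) : W F l (n * d) (f ^ n) := by
  induction n with
  | zero => rw [Nat.cast_zero, zero_mul, pow_zero]; exact W_one hF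
  | succ n ih =>
    rw [pow_succ]
    have h1 := W_mul hF ih hf
    have h2 : (n : ℤ) * d + d = ((n + 1 : ℕ) : ℤ) * d := by push_cast; ring
    rwa [h2] at h1

lemma W_pow_sub {d e : ℤ} {f g : A[X]} (hf : W F l d f) (hg : W F l d g)
    (h : W F l (d + e) (f - g)) (n : ℕ) : W F l (n * d + e) (f ^ n - g ^ n) := by
  induction n with
  | zero =>
    rw [pow_zero, pow_zero, sub_self]
    exact W_zero _
  | succ n ih =>
    have h1 : f ^ (n + 1) - g ^ (n + 1) = f ^ n * (f - g) + (f ^ n - g ^ n) * g := by ring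
    rw [h1]
    refine W_add ?_ ?_
    · have h2 := W_mul hF (W_pow hF hf n) h
      have h3 : (n : ℤ) * d + (d + e) = ((n + 1 : ℕ) : ℤ) * d + e := by push_cast; ring
      rwa [h3] at h2
    · have h2 := W_mul hF ih hg
      have h3 : (n : ℤ) * d + e + d = ((n + 1 : ℕ) : ℤ) * d + e := by push_cast; ring
      rwa [h3] at h2

lemma W_comp {m : ℤ} {d : ℤ} {f g : A[X]} (hf : ∀ i : ℕ, f.coeff i ∈ F (d + i * m).toNat)
    (hg : W F l (-m) g) : W F l d (f.comp g) := by
  rw [comp_eq_sum_left, Polynomial.sum_def]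
  refine W_sum _ _ fun i _ => ?_
  have h1 := W_mul hF (W_C (l := l) (hf i)) (W_pow hF hg i)
  have h2 : d + (i : ℤ) * m + i * -m = d := by ring
  rwa [h2] at h1

lemma W_comp_sub {m e : ℤ} {d : ℤ} {f g g' : A[X]}
    (hf : ∀ i : ℕ, f.coeff i ∈ F (d + i * m).toNat)
    (hg : W F l (-m) g) (hg' : W F l (-m) g') (h : W F l (-m + e) (g - g')) :
    W F l (d + e) (f.comp g - f.comp g') := by
  rw [comp_eq_sum_left, comp_eq_sum_left, Polynomial.sum_def, Polynomial.sum_def,
    ← Finset.sum_sub_distrib]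
  refine W_sum _ _ fun i _ => ?_
  rw [← mul_sub]
  have h1 := W_mul hF (W_C (l := l) (hf i)) (W_pow_sub hF hg hg' h i)
  have h2 : d + (i : ℤ) * m + (i * -m + e) = d + e := by ring
  rwa [h2] at h1

lemma W_shift (c : A) : W F l (-l) (X + C c) :=
  W_add (W_X hF) (W_C (F_nonpos hF (by omega) _))

lemma W_comp_shift {d : ℤ} {f : A[X]} (hf : W F l d f) (c : A) :
    W F l d (f.comp (X + C c)) := W_comp hF hf (W_shift hF c)

lemma W_comp_shift_sub {d : ℤ} {f : A[X]} (hf : W F l d f) (c : A) :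
    W F l (d + l) (f.comp (X + C c) - f) := by
  have h1 := W_comp_sub hF hf (W_shift hF c) (W_X hF) (e := l) (by
    rw [add_sub_cancel_left, neg_add_cancel]
    exact W_C (F_nonpos hF le_rfl _))
  rwa [comp_X] at h1

lemma W_Lam {p : ℕ} (hp : p.Prime) (c : A) : W F l (-(p * l)) (Lam p c) := by
  refine W_sub ?_ ?_
  · have h1 := W_pow hF (W_X (l := l) hF) p
    have h2 : (p : ℤ) * -(l : ℤ) = -(p * l) := by ring
    rwa [h2] at h1
  · have h1 := W_mul hF (W_C (l := l) (F_nonpos hF (le_refl 0) (c ^ (p - 1)))) (W_X (l := l) hF)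
    refine W_anti hF ?_ h1
    have h2 : 1 ≤ (p : ℤ) := by exact_mod_cast hp.one_lt.le
    have h3 : (0 : ℤ) ≤ l := Int.natCast_nonneg l
    nlinarith

lemma W_Xp {p : ℕ} : W F l (-(p * l)) (X ^ p : A[X]) := by
  have h1 := W_pow hF (W_X (l := l) hF) p
  have h2 : (p : ℤ) * -(l : ℤ) = -(p * l) := by ring
  rwa [h2] at h1

lemma W_Lam_sub {p : ℕ} (c : A) :
    W F l (-(p * l) + (p - 1) * l) (Lam p c - X ^ p) := by
  have h0 : Lam p c - X ^ p = 0 - C (c ^ (p - 1)) * X := by rw [Lam]; ring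
  rw [h0]
  refine W_sub (W_zero _) ?_
  have h1 := W_mul hF (W_C (l := l) (F_nonpos hF (le_refl 0) (c ^ (p - 1)))) (W_X (l := l) hF)
  refine W_anti hF (le_of_eq ?_) h1
  ring

/-- The digits of a polynomial of given weight. -/
lemma W_digits [Nontrivial A] {p : ℕ} (hp : p.Prime) (c : A) (d : ℤ) :
    ∀ (N : ℕ) (Q : A[X]), Q.natDegree ≤ N → W F l d (Q.comp (Lam p c)) →
      ∀ i : ℕ, Q.coeff i ∈ F (d + i * (p * l)).toNat := by
  intro N
  induction N with
  | zero =>
    intro Q hQ h i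
    rw [eq_C_of_natDegree_le_zero hQ] at h ⊢
    rw [C_comp] at h
    rw [coeff_C]
    split_ifs with hi
    · subst hi
      have h1 := h 0
      rw [coeff_C_zero] at h1
      refine F_anti hF (le_of_eq ?_) h1
      simp
    · exact Ideal.zero_mem _
  | succ N ih =>
    intro Q hQ h i
    have h1 : Q.coeff (N + 1) ∈ F (d + ((N + 1 : ℕ) : ℤ) * (p * l)).toNat := by
      by_cases hN : Q.natDegree = N + 1
      · have h2 := coeff_comp_degree_mul_degree (p := Q) (q := Lam p c) (by
          rw [Lam_degree hp]; exact hp.ne_zero)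
        rw [Lam_degree hp, (Lam_monic hp c).leadingCoeff, one_pow, mul_one] at h2
        have h3 := h (Q.natDegree * p)
        rw [h2, leadingCoeff, hN] at h3
        refine F_anti hF (le_of_eq ?_) h3
        push_cast
        ring
      · rw [coeff_eq_zero_of_natDegree_lt (by omega)]
        exact Ideal.zero_mem _
    let Q' : A[X] := Q - C (Q.coeff (N + 1)) * X ^ (N + 1)
    have hQ' : Q'.natDegree ≤ N := by
      rw [natDegree_le_iff_coeff_eq_zero]
      intro M hM
      rw [coeff_sub, coeff_C_mul_X_pow]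
      split_ifs with hMN
      · rw [hMN, sub_self]
      · rw [sub_zero, coeff_eq_zero_of_natDegree_lt (by omega)]
    have h2 : W F l d (Q'.comp (Lam p c)) := by
      rw [sub_comp, mul_comp, C_comp, pow_comp, X_comp]
      refine W_sub h ?_
      have h3 := W_mul hF (W_C (l := l) h1) (W_pow hF (W_Lam (l := l) hF hp c) (N + 1))
      refine W_anti hF (le_of_eq ?_) h3
      push_cast
      ring
    by_cases hi : i = N + 1
    · rw [hi]
      exact h1
    · have h3 := ih Q' hQ' h2 i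
      rwa [coeff_sub, coeff_C_mul_X_pow, if_neg hi, sub_zero] at h3

end wt

end Pool.Agent.W559.Ga
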